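import Mathlib

/-!
Clubs, limit points and coherent sequences on a well-order `W` of regular uncountable
cardinality all of whose proper initial segments are small.
-/

set_option autoImplicit false
set_option linter.unusedVariables false
set_option linter.unusedSectionVars false
set_option linter.style.haveILetI false
set_option linter.deprecated false

universe v

open Cardinal Set Order

namespace Pool.Agent.W877.Sq

variable {W : Type v} [LinearOrder W] [WellFoundedLT W]

/-- `W` is (a copy of) an uncountable regular cardinal. -/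
structure Reg (W : Type v) [LinearOrder W] : Prop where
  cof : Order.cof W = #W
  reg : (#W).IsRegular
  unc : ℵ₀ < #W
  init : ∀ x : W, #(Set.Iio x) < #W

/-- `y` is a limit point of `A`. -/
def Acc (A : Set W) (y : W) : Prop := (∃ b, b < y) ∧ ∀ b < y, ∃ z ∈ A, b < z ∧ z < y

/-- `y` is a limit point of the whole order. -/
def Lim (y : W) : Prop := Acc (Set.univ : Set W) y

theorem Acc.mono {A B : Set W} {y : W} (h : A ⊆ B) (hA : Acc A y) : Acc B y :=
  ⟨hA.1, fun b hb => by
    obtain ⟨z, hz, h1⟩ := hA.2 b hb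
    exact ⟨z, h hz, h1⟩⟩

theorem Acc.lim {A : Set W} {y : W} (hA : Acc A y) : Lim y := hA.mono (Set.subset_univ _)

theorem Acc.inter_Iio {A : Set W} {x y : W} (hA : Acc A y) (h : y ≤ x) :
    Acc (A ∩ Set.Iio x) y :=
  ⟨hA.1, fun b hb => by
    obtain ⟨z, hz, h1, h2⟩ := hA.2 b hb
    exact ⟨z, ⟨hz, lt_of_lt_of_le h2 h⟩, h1, h2⟩⟩

namespace Reg

variable (hW : Reg W)

include hW

theorem bound {A : Set W} (hA : #A < #W) : ∃ b, ∀ x ∈ A, x < b := by
  have h : ¬ IsCofinal A := fun h => by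
    have := Order.cof_le h
    rw [hW.cof] at this
    exact absurd hA (not_lt.2 this)
  exact not_isCofinal_iff.1 h

theorem bound_fun {ι : Type v} (hι : #ι < #W) (f : ι → W) : ∃ b, ∀ i, f i < b := by
  obtain ⟨b, hb⟩ := hW.bound (A := Set.range f) (lt_of_le_of_lt mk_range_le hι)
  exact ⟨b, fun i => hb _ ⟨i, rfl⟩⟩

theorem inf_lt {c : Cardinal.{v}} (hc : c ≤ ℵ₀) : c < #W := lt_of_le_of_lt hc hW.unc

theorem exists_gt (a : W) : ∃ b, a < b := by
  obtain ⟨b, hb⟩ := hW.bound (A := {a}) (by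
    rw [mk_singleton]
    exact hW.inf_lt one_lt_aleph0.le)
  exact ⟨b, hb a rfl⟩

theorem noMax : NoMaxOrder W := ⟨fun a => hW.exists_gt a⟩

theorem nonempty : Nonempty W := by
  have h : #W ≠ 0 := fun h => by
    have := hW.unc
    rw [h] at this
    exact absurd this (by simp)
  exact mk_ne_zero_iff.1 h

theorem cof_ne : Order.cof W ≠ ℵ₀ := by
  rw [hW.cof]
  exact hW.unc.ne'

theorem iUnion_lt {Z ι : Type v} (f : ι → Set Z) (hι : #ι < #W) (hf : ∀ i, #(f i) < #W) :
    #(⋃ i, f i : Set Z) < #W :=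
  (card_iUnion_lt_iff_forall_of_isRegular hW.reg hι).2 hf

theorem Iic_lt (x : W) : #(Set.Iic x) < #W := by
  obtain ⟨b, hb⟩ := hW.exists_gt x
  refine lt_of_le_of_lt (mk_le_mk_of_subset ?_) (hW.init b)
  exact fun y hy => lt_of_le_of_lt hy hb

end Reg

/-- Unbounded subset of the well-order, with respect to the strict order. -/
theorem isClub_of {c : Set W} (h1 : ∀ b, ∃ z ∈ c, b < z)
    (h2 : ∀ y, Acc c y → y ∈ c) : IsClub c := by
  refine ⟨?_, fun b => ?_⟩
  · intro d hd hne _ a ha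
    by_cases had : a ∈ d
    · exact hd had
    · apply h2
      obtain ⟨z0, hz0⟩ := hne
      have hlt : ∀ z ∈ d, z < a := fun z hz =>
        lt_of_le_of_ne (ha.1 hz) (fun h => had (h ▸ hz))
      refine ⟨⟨z0, hlt z0 hz0⟩, fun b hb => ?_⟩
      have hnb : ¬ b ∈ upperBounds d := fun h => absurd (ha.2 h) (not_le.2 hb)
      simp only [upperBounds, Set.mem_setOf_eq, not_forall, not_le] at hnb
      obtain ⟨z, hz, hbz⟩ := hnb
      exact ⟨z, hd hz, hbz, hlt z hz⟩
  · obtain ⟨z, hz, h⟩ := h1 b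
    exact ⟨z, hz, h.le⟩

theorem isClub_mem_of_acc {c : Set W} (hc : IsClub c) {y : W} (hy : Acc c y) : y ∈ c := by
  obtain ⟨b, hb⟩ := hy.1
  obtain ⟨z0, hz0, h1, h2⟩ := hy.2 b hb
  refine hc.isLUB_mem (t := c ∩ Set.Iio y) Set.inter_subset_left ⟨z0, hz0, h2⟩ ⟨?_, ?_⟩
  · exact fun z hz => hz.2.le
  · intro u hu
    by_contra hlt
    obtain ⟨z, hz, h3, h4⟩ := hy.2 u (not_le.1 hlt)
    exact absurd (hu ⟨hz, h4⟩) (not_le.2 h3)

theorem isClub_unb [NoMaxOrder W] {c : Set W} (hc : IsClub c) (b : W) : ∃ z ∈ c, b < z := by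
  obtain ⟨b', hb'⟩ := exists_gt b
  obtain ⟨z, hz, h⟩ := hc.isCofinal b'
  exact ⟨z, hz, lt_of_lt_of_le hb' h⟩

/-- intersection of a stationary set and a club is stationary -/
theorem stat_inter_club (hW : Reg W) {T c : Set W} (hT : IsStationary T) (hc : IsClub c) :
    IsStationary (T ∩ c) := by
  intro d hd
  have := hT (hc.inter hW.cof_ne hd)
  rwa [Set.inter_assoc]

theorem lim_club (hW : Reg W) : IsClub {y : W | Lim y} := by
  haveI := hW.noMax
  haveI := hW.nonempty
  apply isClub_of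
  · intro b
    -- take an omega sequence above `b`
    choose f hf using hW.exists_gt
    let s : ℕ → W := fun n => f^[n] (f b)
    have hs : ∀ n, s n < s (n + 1) := fun n => by
      simp only [s, Function.iterate_succ_apply']
      exact hf _
    obtain ⟨u, hu⟩ := hW.bound (A := Set.range s) (by
      refine hW.inf_lt ?_
      rw [le_aleph0_iff_set_countable]
      exact Set.countable_range s)
    obtain ⟨m, hm, hmin⟩ := WellFounded.has_min (wellFounded_lt (α := W))
      {u : W | ∀ n, s n < u} ⟨u, fun n => hu _ ⟨n, rfl⟩⟩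
    have hb0 : b < s 0 := hf b
    refine ⟨m, ⟨⟨b, hb0.trans (hm 0)⟩, fun d hd => ?_⟩, hb0.trans (hm 0)⟩
    have : ¬ ∀ n, s n < d := fun h => hmin d h hd
    push Not at this
    obtain ⟨n, hn⟩ := this
    exact ⟨s (n + 1), Set.mem_univ _, lt_of_le_of_lt hn (hs n), hm _⟩
  · intro y hy
    exact hy.lim

theorem Ioi_club (hW : Reg W) (a : W) : IsClub {y : W | a < y} := by
  haveI := hW.noMax
  apply isClub_of
  · intro b
    obtain ⟨z, hz⟩ := exists_gt (max a b)
    exact ⟨z, lt_of_le_of_lt (le_max_left _ _) hz, lt_of_le_of_lt (le_max_right _ _) hz⟩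
  · intro y hy
    obtain ⟨b, hb⟩ := hy.1
    obtain ⟨z, hz, _, h2⟩ := hy.2 b hb
    exact lt_trans hz h2

/-! ### Coherent sequences -/

/-- Coherence data at the limit points of `W`. -/
structure Coh (C : W → Set (Set W)) : Prop where
  ne : ∀ x, Lim x → (C x).Nonempty
  sub : ∀ x, Lim x → ∀ c ∈ C x, c ⊆ Set.Iio x
  unb : ∀ x, Lim x → ∀ c ∈ C x, ∀ b < x, ∃ z ∈ c, b < z
  closed : ∀ x, Lim x → ∀ c ∈ C x, ∀ y < x, Acc c y → y ∈ c
  coh : ∀ x, Lim x → ∀ c ∈ C x, ∀ y < x, Acc c y → c ∩ Set.Iio y ∈ C y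

/-- A thread. -/
def Thread (C : W → Set (Set W)) (D : Set W) : Prop :=
  (∀ b, ∃ z ∈ D, b < z) ∧ (∀ y, Acc D y → y ∈ D) ∧ ∀ y, Acc D y → D ∩ Set.Iio y ∈ C y

/-- The initial segment of `c` through its first element above `a`. -/
def F (a : W) (c : Set W) : Set W := {x | x ∈ c ∧ ∀ y ∈ c, a < y → x ≤ y}

theorem F_sub (a : W) (c : Set W) : F a c ⊆ c := fun _ hx => hx.1

theorem F_F {a a' : W} (h : a ≤ a') (c : Set W) : F a (F a' c) = F a c := by
  ext x
  constructor
  · rintro ⟨⟨hx, h1⟩, h2⟩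
    refine ⟨hx, fun y hy hay => ?_⟩
    by_cases hyF : y ∈ F a' c
    · exact h2 y hyF hay
    · have : ¬ ∀ z ∈ c, a' < z → y ≤ z := fun h => hyF ⟨hy, h⟩
      push Not at this
      obtain ⟨z, hz, h3, h4⟩ := this
      exact (h1 z hz h3).trans h4.le
  · rintro ⟨hx, h1⟩
    exact ⟨⟨hx, fun y hy hay => h1 y hy (lt_of_le_of_lt h hay)⟩, fun y hy hay => h1 y hy.1 hay⟩

theorem F_cut {a y : W} {c : Set W} (h : ∃ m ∈ c, a < m ∧ m < y) :
    F a (c ∩ Set.Iio y) = F a c := by
  obtain ⟨m, hm, ham, hmy⟩ := h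
  ext x
  constructor
  · rintro ⟨⟨hx, hxy⟩, h1⟩
    refine ⟨hx, fun z hz haz => ?_⟩
    rcases lt_or_ge z y with h | h
    · exact h1 z ⟨hz, h⟩ haz
    · exact (lt_of_lt_of_le hxy h).le
  · rintro ⟨hx, h1⟩
    exact ⟨⟨hx, lt_of_le_of_lt (h1 m hm ham) hmy⟩, fun z hz haz => h1 z hz.1 haz⟩

open Classical in
/-- The first element of `c` above `a`. -/
noncomputable def first (a : W) (c : Set W) : W :=
  if h : ∃ x, x ∈ c ∧ a < x then
    WellFounded.min (wellFounded_lt (α := W)) {x | x ∈ c ∧ a < x} h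
  else a

theorem first_spec {a : W} {c : Set W} (h : ∃ x, x ∈ c ∧ a < x) :
    first a c ∈ c ∧ a < first a c := by
  have := WellFounded.min_mem (wellFounded_lt (α := W)) {x | x ∈ c ∧ a < x} h
  simp only [first, dif_pos h]
  exact this

theorem first_le {a : W} {c : Set W} {y : W} (hy : y ∈ c) (hay : a < y) : first a c ≤ y := by
  have h : ∃ x, x ∈ c ∧ a < x := ⟨y, hy, hay⟩
  simp only [first, dif_pos h]
  exact WellFounded.min_le (wellFounded_lt (α := W)) (s := {x | x ∈ c ∧ a < x}) ⟨hy, hay⟩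

theorem F_eq {a : W} {c : Set W} (h : ∃ x, x ∈ c ∧ a < x) :
    F a c = insert (first a c) (c ∩ Set.Iio (first a c)) := by
  have hs := first_spec h
  ext x
  simp only [Set.mem_insert_iff, Set.mem_inter_iff, Set.mem_Iio]
  constructor
  · rintro ⟨hx, h1⟩
    rcases (h1 _ hs.1 hs.2).lt_or_eq with h | h
    · exact Or.inr ⟨hx, h⟩
    · exact Or.inl h
  · rintro (h | ⟨hx, h⟩)
    · subst h
      exact ⟨hs.1, fun y hy hay => first_le hy hay⟩
    · exact ⟨hx, fun y hy hay => h.le.trans (first_le hy hay)⟩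

theorem first_F {a : W} {c : Set W} (h : ∃ x, x ∈ c ∧ a < x) :
    first a (F a c) = first a c := by
  have hs := first_spec h
  have hmem : first a c ∈ F a c := ⟨hs.1, fun y hy hay => first_le hy hay⟩
  have h' : ∃ x, x ∈ F a c ∧ a < x := ⟨_, hmem, hs.2⟩
  apply le_antisymm
  · exact first_le hmem hs.2
  · have h2 := first_spec h'
    exact first_le h2.1.1 h2.2

/-! ### Counting traces -/

/-- Traces of the members of the sequence on the segment below `r`. -/
def Nset (C : W → Set (Set W)) (r : W) : Set (Set W) :=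
  {d | ∃ x, Lim x ∧ r ≤ x ∧ ∃ c ∈ C x, d = c ∩ Set.Iio r}

theorem Nset_lt (hW : Reg W) {C : W → Set (Set W)} (hC : Coh C)
    (hw : ∀ x, Lim x → #(C x) < #W) (r : W) : #(Nset C r) < #W := by
  classical
  induction r using WellFoundedLT.induction with
  | _ r ih =>
    have hsub : Nset C r ⊆ ({d | Lim r ∧ d ∈ C r} ∪ {∅}) ∪
        ⋃ s : Set.Iio r, (Nset C s.1 ∪ (insert s.1) '' Nset C s.1) := by
      rintro d ⟨x, hx, hrx, c, hc, rfl⟩
      by_cases hacc : Acc c r
      · left; left
        refine ⟨hacc.lim, ?_⟩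
        rcases hrx.lt_or_eq with h | h
        · exact hC.coh x hx c hc r h hacc
        · subst h
          have : c ∩ Set.Iio r = c := Set.inter_eq_left.2 (hC.sub r hx c hc)
          rw [this]
          exact hc
      · by_cases h0 : ∃ b, b < r
        · have : ¬ ∀ b < r, ∃ z ∈ c, b < z ∧ z < r := fun h => hacc ⟨h0, h⟩
          push Not at this
          obtain ⟨b, hb, h1⟩ := this
          right
          rw [Set.mem_iUnion]
          refine ⟨⟨b, hb⟩, ?_⟩
          have hN : c ∩ Set.Iio b ∈ Nset C b := ⟨x, hx, hb.le.trans hrx, c, hc, rfl⟩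
          by_cases hbc : b ∈ c
          · right
            refine ⟨_, hN, ?_⟩
            ext z
            simp only [Set.mem_insert_iff, Set.mem_inter_iff, Set.mem_Iio]
            constructor
            · rintro (h | ⟨h, h'⟩)
              · subst h; exact ⟨hbc, hb⟩
              · exact ⟨h, h'.trans hb⟩
            · rintro ⟨h, h'⟩
              rcases lt_trichotomy z b with h2 | h2 | h2
              · exact Or.inr ⟨h, h2⟩
              · exact Or.inl h2
              · exact absurd h' (not_lt.2 (h1 z h h2))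
          · left
            convert hN using 1
            ext z
            simp only [Set.mem_inter_iff, Set.mem_Iio]
            constructor
            · rintro ⟨h, h'⟩
              refine ⟨h, ?_⟩
              rcases lt_trichotomy z b with h2 | h2 | h2
              · exact h2
              · subst h2; exact absurd h hbc
              · exact absurd h' (not_lt.2 (h1 z h h2))
            · rintro ⟨h, h'⟩
              exact ⟨h, h'.trans hb⟩
        · left; right
          rw [Set.mem_singleton_iff, Set.eq_empty_iff_forall_notMem]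
          rintro z ⟨_, hz⟩
          exact h0 ⟨z, hz⟩
    have hinf : ℵ₀ ≤ #W := hW.unc.le
    refine lt_of_le_of_lt (mk_le_mk_of_subset hsub) ?_
    refine lt_of_le_of_lt (mk_union_le _ _) (add_lt_of_lt hinf ?_ ?_)
    · refine lt_of_le_of_lt (mk_union_le _ _) (add_lt_of_lt hinf ?_ ?_)
      · by_cases hl : Lim r
        · simpa [hl] using! hw r hl
        · simpa [hl] using! hW.reg.pos
      · rw [mk_singleton]
        exact hW.inf_lt one_lt_aleph0.le
    · apply hW.iUnion_lt _ (hW.init r)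
      intro s
      refine lt_of_le_of_lt (mk_union_le _ _) (add_lt_of_lt hinf (ih s.1 s.2) ?_)
      exact lt_of_le_of_lt mk_image_le (ih s.1 s.2)

/-- Few values of `F a` with bounded first element. -/
theorem F_few (hW : Reg W) {C : W → Set (Set W)} (hC : Coh C)
    (hw : ∀ x, Lim x → #(C x) < #W) (a r : W) :
    #{z : Set W | ∃ x, Lim x ∧ a < x ∧ ∃ c ∈ C x, z = F a c ∧ first a c ≤ r} < #W := by
  have hsub : {z : Set W | ∃ x, Lim x ∧ a < x ∧ ∃ c ∈ C x, z = F a c ∧ first a c ≤ r} ⊆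
      ⋃ s : Set.Iic r, (insert s.1) '' Nset C s.1 := by
    rintro z ⟨x, hx, hax, c, hc, rfl, hr⟩
    have hex : ∃ y, y ∈ c ∧ a < y := by
      obtain ⟨y, hy, h⟩ := hC.unb x hx c hc a hax
      exact ⟨y, hy, h⟩
    rw [Set.mem_iUnion]
    refine ⟨⟨first a c, hr⟩, c ∩ Set.Iio (first a c), ⟨x, hx, ?_, c, hc, rfl⟩, (F_eq hex).symm⟩
    exact (hC.sub x hx c hc (first_spec hex).1).le
  refine lt_of_le_of_lt (mk_le_mk_of_subset hsub) ?_
  apply hW.iUnion_lt _ (hW.Iic_lt r)
  intro s
  exact lt_of_le_of_lt mk_image_le (Nset_lt hW hC hw s.1)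

end Pool.Agent.W877.Sq
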