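import Mathlib

/-!
Definitions for square sequences with many clubs, and simultaneous stationary reflection,
for sets of ordinals.
-/

set_option autoImplicit false

universe u

open Cardinal Set

namespace Pool.Agent.W877.Sq

/-- `acc(A) = {β < sup{α + 1 : α ∈ A} : β = sup(A ∩ β)}` for a set `A` of ordinals. -/
def acc (A : Set Ordinal.{u}) : Set Ordinal.{u} :=
  {β | β < sSup ((fun α => α + 1) '' A) ∧ β = sSup (A ∩ Set.Iio β)}

/-- `c` is a club subset of the ordinal `α`: it is a subset of `α`, it is unbounded in `α`, and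
it contains the supremum of each of its nonempty subsets whose supremum is below `α`. -/
def IsClubIn (c : Set Ordinal.{u}) (α : Ordinal.{u}) : Prop :=
  c ⊆ Set.Iio α ∧ (∀ β < α, ∃ γ ∈ c, β ≤ γ) ∧
    ∀ A : Set Ordinal.{u}, A ⊆ c → A.Nonempty → sSup A < α → sSup A ∈ c

/-- `S` is a stationary subset of the ordinal `α`: a subset of `α` meeting every club in `α`. -/
def IsStationaryIn (S : Set Ordinal.{u}) (α : Ordinal.{u}) : Prop :=
  S ⊆ Set.Iio α ∧ ∀ c : Set Ordinal.{u}, IsClubIn c α → (S ∩ c).Nonempty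

/-- `C` (restricted to the ordinals below `lam`) is a coherent sequence of length `lam` and
width `< eta`. -/
structure IsCoherentSeq (lam eta : Cardinal.{u}) (C : Ordinal.{u} → Set (Set Ordinal.{u})) :
    Prop where
  nonempty : ∀ α < lam.ord, (C α).Nonempty
  club : ∀ α < lam.ord, ∀ c ∈ C α, IsClubIn c α
  width : ∀ α < lam.ord, #(C α) < Cardinal.lift.{u + 1} eta
  coherent : ∀ β < lam.ord, ∀ c ∈ C β, ∀ α ∈ acc c, c ∩ Set.Iio α ∈ C α

/-- `D` is a thread through `C`. -/
def IsThread (lam : Cardinal.{u}) (C : Ordinal.{u} → Set (Set Ordinal.{u}))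
    (D : Set Ordinal.{u}) : Prop :=
  IsClubIn D lam.ord ∧ ∀ α ∈ acc D, D ∩ Set.Iio α ∈ C α

/-- The principle `□(lam, < eta)`. -/
def SquareLt (lam eta : Cardinal.{u}) : Prop :=
  ∃ C : Ordinal.{u} → Set (Set Ordinal.{u}), IsCoherentSeq lam eta C ∧
    ¬ ∃ D : Set Ordinal.{u}, IsThread lam C D

/-- `T` reflects at `α`: `α` has uncountable cofinality and `T ∩ α` is stationary in `α`. -/
def ReflectsAt (T : Set Ordinal.{u}) (α : Ordinal.{u}) : Prop :=
  ℵ₀ < α.cof ∧ IsStationaryIn (T ∩ Set.Iio α) α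

/-- The principle `Refl(< kappa, S)`: every family of fewer than `kappa` stationary subsets
(in `lam`) of `S` reflects simultaneously at some `α < lam`. -/
def ReflLt (lam kappa : Cardinal.{u}) (S : Set Ordinal.{u}) : Prop :=
  ∀ F : Set (Set Ordinal.{u}), #F < Cardinal.lift.{u + 1} kappa →
    (∀ T ∈ F, T ⊆ S ∧ IsStationaryIn T lam.ord) →
    ∃ α < lam.ord, ∀ T ∈ F, ReflectsAt T α

end Pool.Agent.W877.Sq
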