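import Pool.Agent.W877.Sq.Basic

/-!
Trees with narrow levels have branches, and branches give threads.
-/

set_option autoImplicit false
set_option linter.unusedVariables false
set_option linter.unusedSectionVars false
set_option linter.style.haveILetI false
set_option linter.deprecated false

universe v

open Cardinal Set Order

namespace Pool.Agent.W877.Sq

variable {W : Type v} [LinearOrder W] [WellFoundedLT W]

/-- There are closure points of `f` below which every family of size at most `nu` is bounded. -/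
theorem exists_closure (hW : Reg W) {nu : Cardinal.{v}} (hnu : ℵ₀ ≤ nu) (hnuW : succ nu < #W)
    (f : W → W) : ∃ p : W, (∀ a < p, f a < p) ∧
      ∀ (ι : Type v) (g : ι → W), #ι ≤ nu → (∀ i, g i < p) → ∃ s < p, ∀ i, g i ≤ s := by
  classical
  haveI := hW.nonempty
  -- a monotone bound for `f`
  have hF : ∀ a, ∃ b, a < b ∧ ∀ x ≤ a, f x < b := by
    intro a
    obtain ⟨b, hb⟩ := hW.bound (A := f '' Set.Iic a)
      (lt_of_le_of_lt mk_image_le (hW.Iic_lt a))
    obtain ⟨b', hb'⟩ := hW.exists_gt (max a b)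
    exact ⟨b', lt_of_le_of_lt (le_max_left _ _) hb', fun x hx =>
      lt_trans (hb _ ⟨x, hx, rfl⟩) (lt_of_le_of_lt (le_max_right _ _) hb')⟩
  choose G hG1 hG2 using hF
  -- bounds for small sets
  have hB : ∀ A : Set W, ∃ b, #A < #W → ∀ x ∈ A, x < b := by
    intro A
    by_cases hA : #A < #W
    · obtain ⟨b, hb⟩ := hW.bound hA
      exact ⟨b, fun _ => hb⟩
    · exact ⟨Classical.arbitrary W, fun h => absurd h hA⟩
  choose B hB using hB
  -- recursion of length `succ nu`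
  let N := (succ nu).ord.ToType
  have hNcard : #N = succ nu := by simp [N]
  have hNreg : (succ nu).IsRegular := isRegular_succ hnu
  have hNcof : Order.cof N = succ nu := by
    rw [Ordinal.cof_toType]
    exact hNreg.cof_ord
  have hNbd : ∀ A : Set N, #A ≤ nu → ∃ b : N, ∀ x ∈ A, x < b := by
    intro A hA
    have h : ¬ IsCofinal A := fun h => by
      have := Order.cof_le h
      rw [hNcof] at this
      exact absurd (lt_of_le_of_lt hA (lt_succ nu)) (not_lt.2 this)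
    exact not_isCofinal_iff.1 h
  have hNini : ∀ n : N, #(Set.Iio n) < #W := by
    intro n
    refine lt_of_le_of_lt (mk_set_le _) ?_
    rw [hNcard]
    exact hnuW
  let s : N → W := WellFounded.fix (wellFounded_lt (α := N))
    (fun n ih => B (Set.range fun m : Set.Iio n => G (ih m.1 m.2)))
  have hs : ∀ n, s n = B (Set.range fun m : Set.Iio n => G (s m.1)) := by
    intro n
    exact WellFounded.fix_eq _ _ n
  have hs2 : ∀ n m, m < n → G (s m) < s n := by
    intro n m hmn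
    rw [hs n]
    exact hB _ (lt_of_le_of_lt mk_range_le (hNini n)) _ ⟨⟨m, hmn⟩, rfl⟩
  obtain ⟨u, hu⟩ := hW.bound (A := Set.range s) (by
    refine lt_of_le_of_lt mk_range_le ?_
    rw [hNcard]
    exact hnuW)
  obtain ⟨p, hp, hmin⟩ := WellFounded.has_min (wellFounded_lt (α := W))
    {u : W | ∀ n, s n < u} ⟨u, fun n => hu _ ⟨n, rfl⟩⟩
  have hbelow : ∀ a < p, ∃ n, a ≤ s n := by
    intro a ha
    by_contra hno
    push Not at hno
    exact hmin a hno ha
  have hnext : ∀ n : N, ∃ n', n < n' := by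
    intro n
    obtain ⟨b, hb⟩ := hNbd {n} (by
      rw [mk_singleton]
      exact one_lt_aleph0.le.trans hnu)
    exact ⟨b, hb n rfl⟩
  refine ⟨p, ?_, ?_⟩
  · intro a ha
    obtain ⟨n, hn⟩ := hbelow a ha
    obtain ⟨n', hn'⟩ := hnext n
    exact (hG2 _ a hn).trans ((hs2 n' n hn').trans (hp n'))
  · intro ι g hι hg
    choose k hk using fun i => hbelow (g i) (hg i)
    obtain ⟨n, hn⟩ := hNbd (Set.range k) (mk_range_le.trans hι)
    refine ⟨s n, hp n, fun i => ?_⟩
    have h1 := hs2 n (k i) (hn _ ⟨i, rfl⟩)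
    exact (hk i).trans ((hG1 _).trans h1).le

/-- A system of nonempty levels of size at most `nu`, with `succ nu` below the (regular) height,
has a branch. -/
theorem branch (hW : Reg W) {Z : Type v} {nu : Cardinal.{v}} (hnu : ℵ₀ ≤ nu)
    (hnuW : succ nu < #W) (pr : W → Z → Z) (V : W → Set Z)
    (hpr : ∀ a a' z, a ≤ a' → pr a (pr a' z) = pr a z)
    (hfix : ∀ a, ∀ z ∈ V a, pr a z = z)
    (hV : ∀ a, (V a).Nonempty) (hcard : ∀ a, #(V a) ≤ nu)
    (hdown : ∀ a a', a ≤ a' → ∀ z ∈ V a', pr a z ∈ V a) :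
    ∃ b : W → Z, (∀ a, b a ∈ V a) ∧ ∀ a a', a ≤ a' → pr a (b a') = b a := by
  classical
  haveI := hW.nonempty
  have hnuW' : nu < #W := (lt_succ nu).trans hnuW
  let Live : W → Z → Prop := fun a z => z ∈ V a ∧ ∀ a', a ≤ a' → ∃ z' ∈ V a', pr a z' = z
  -- live nodes exist at every level
  have hlive0 : ∀ a, ∃ z, Live a z := by
    intro a
    by_contra hno
    push Not at hno
    have h1 : ∀ z : V a, ∃ a', a ≤ a' ∧ ∀ z' ∈ V a', pr a z' ≠ z.1 := by
      intro z
      by_contra hc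
      push Not at hc
      exact hno z.1 ⟨z.2, fun a' ha' => hc a' ha'⟩
    choose w hw1 hw2 using h1
    obtain ⟨b, hb⟩ := hW.bound_fun (lt_of_le_of_lt (hcard a) hnuW') w
    obtain ⟨x, hx⟩ := hV (max a b)
    have hax : a ≤ max a b := le_max_left _ _
    have hz := hdown a _ hax x hx
    have hwb : w ⟨pr a x, hz⟩ ≤ max a b := (hb _).le.trans (le_max_right _ _)
    refine hw2 ⟨pr a x, hz⟩ (pr (w ⟨pr a x, hz⟩) x) (hdown _ _ hwb x hx) ?_
    rw [hpr _ _ _ (hw1 _)]
  -- live nodes have live extensions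
  have hext : ∀ a z, Live a z → ∀ a', a ≤ a' → ∃ z', Live a' z' ∧ pr a z' = z := by
    intro a z hz a' haa'
    by_contra hno
    push Not at hno
    have h1 : ∀ y : {y : V a' // pr a y.1 = z}, ∃ a'', a' ≤ a'' ∧
        ∀ z' ∈ V a'', pr a' z' ≠ y.1.1 := by
      intro y
      by_contra hc
      push Not at hc
      exact hno y.1.1 ⟨y.1.2, fun a'' ha'' => hc a'' ha''⟩ y.2
    choose w hw1 hw2 using h1
    have hc' : #{y : V a' // pr a y.1 = z} < #W :=
      lt_of_le_of_lt ((mk_subtype_le _).trans (hcard a')) hnuW'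
    obtain ⟨b, hb⟩ := hW.bound_fun hc' w
    have ha'x : a' ≤ max a' b := le_max_left _ _
    obtain ⟨x, hx, hxz⟩ := hz.2 (max a' b) (haa'.trans ha'x)
    have hy := hdown a' _ ha'x x hx
    have hyz : pr a (pr a' x) = z := by rw [hpr _ _ _ haa', hxz]
    have hwb : w ⟨⟨pr a' x, hy⟩, hyz⟩ ≤ max a' b := (hb _).le.trans (le_max_right _ _)
    refine hw2 ⟨⟨pr a' x, hy⟩, hyz⟩ (pr (w ⟨⟨pr a' x, hy⟩, hyz⟩) x) (hdown _ _ hwb x hx) ?_
    rw [hpr _ _ _ (hw1 _)]
  -- projections of live nodes are live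
  have hproj : ∀ a a' z, a ≤ a' → Live a' z → Live a (pr a z) := by
    intro a a' z haa' hz
    refine ⟨hdown a a' haa' z hz.1, fun e hae => ?_⟩
    obtain ⟨y, hy, hyz⟩ := hz.2 (max a' e) (le_max_left _ _)
    refine ⟨pr e y, hdown e _ (le_max_right _ _) y hy, ?_⟩
    rw [hpr _ _ _ hae, ← hyz, hpr _ _ _ haa']
  by_cases hsplit : ∃ a z, Live a z ∧ ∀ a', a ≤ a' → ∀ z1 z2, Live a' z1 → Live a' z2 →
      pr a z1 = z → pr a z2 = z → z1 = z2
  · obtain ⟨a0, z0, hz0, huniq⟩ := hsplit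
    have hex : ∀ a, ∃ z, Live (max a0 a) z ∧ pr a0 z = z0 := fun a =>
      hext a0 z0 hz0 _ (le_max_left _ _)
    choose y hy1 hy2 using hex
    refine ⟨fun a => pr a (y a), fun a => (hproj a _ _ (le_max_right _ _) (hy1 a)).1, ?_⟩
    intro a a' haa'
    have h1 : pr (max a0 a) (y a') = y a := by
      have hle : max a0 a ≤ max a0 a' := max_le_max le_rfl haa'
      apply huniq (max a0 a) (le_max_left _ _) _ _ (hproj _ _ _ hle (hy1 a')) (hy1 a) _ (hy2 a)
      rw [hpr _ _ _ (le_max_left _ _), hy2]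
    change pr a (pr a' (y a')) = pr a (y a)
    rw [hpr _ _ _ haa', ← h1, hpr _ _ _ (le_max_right _ _)]
  · exfalso
    push Not at hsplit
    -- splitting levels
    have hsp : ∀ a, ∃ l, a ≤ l ∧ ∀ z, Live a z → ∃ z1 z2, Live l z1 ∧ Live l z2 ∧
        pr a z1 = z ∧ pr a z2 = z ∧ z1 ≠ z2 := by
      intro a
      have h1 : ∀ z : {z : V a // Live a z.1}, ∃ a', a ≤ a' ∧ ∃ z1 z2, Live a' z1 ∧ Live a' z2 ∧
          pr a z1 = z.1.1 ∧ pr a z2 = z.1.1 ∧ z1 ≠ z2 := by
        intro z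
        obtain ⟨a', h1, z1, z2, h2, h3, h4, h5, h6⟩ := hsplit a z.1.1 z.2
        exact ⟨a', h1, z1, z2, h2, h3, h4, h5, h6⟩
      choose w hw1 hw2 using h1
      have hc' : #{z : V a // Live a z.1} < #W :=
        lt_of_le_of_lt ((mk_subtype_le _).trans (hcard a)) hnuW'
      obtain ⟨b, hb⟩ := hW.bound_fun hc' w
      refine ⟨max a b, le_max_left _ _, fun z hz => ?_⟩
      obtain ⟨z1, z2, h1, h2, h3, h4, h5⟩ := hw2 ⟨⟨z, hz.1⟩, hz⟩
      have hwb : w ⟨⟨z, hz.1⟩, hz⟩ ≤ max a b := (hb _).le.trans (le_max_right _ _)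
      obtain ⟨y1, hy1, hy1'⟩ := hext _ z1 h1 _ hwb
      obtain ⟨y2, hy2, hy2'⟩ := hext _ z2 h2 _ hwb
      refine ⟨y1, y2, hy1, hy2, ?_, ?_, ?_⟩
      · rw [← hpr a _ y1 (hw1 ⟨⟨z, hz.1⟩, hz⟩), hy1', h3]
      · rw [← hpr a _ y2 (hw1 ⟨⟨z, hz.1⟩, hz⟩), hy2', h4]
      · rintro rfl
        exact h5 (hy1'.symm.trans hy2')
    choose l hl1 hl2 using hsp
    obtain ⟨p, hp1, hp2⟩ := exists_closure hW hnu hnuW l
    obtain ⟨x, hx⟩ := hlive0 p
    -- levels below `p` at which nodes of level `p` differ from `x`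
    let Q : V p → Prop := fun z => ∃ s < p, pr s z.1 ≠ pr s x
    have hQ : ∀ z : {z : V p // Q z}, ∃ s < p, pr s z.1.1 ≠ pr s x := fun z => z.2
    choose k hk1 hk2 using hQ
    obtain ⟨s, hsp, hs⟩ := hp2 {z : V p // Q z} k ((mk_subtype_le _).trans (hcard p)) hk1
    have hsame : ∀ z ∈ V p, pr s z = pr s x → ∀ t < p, pr t z = pr t x := by
      intro z hz hzx t ht
      by_contra hne
      have hq : Q ⟨z, hz⟩ := ⟨t, ht, hne⟩
      apply hk2 ⟨⟨z, hz⟩, hq⟩
      have hks := hs ⟨⟨z, hz⟩, hq⟩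
      rw [← hpr _ _ z hks, hzx, hpr _ _ _ hks]
    have hlx : Live s (pr s x) := hproj s p x hsp.le hx
    obtain ⟨z1, z2, h1, h2, h3, h4, h5⟩ := hl2 s (pr s x) hlx
    have hlt : l s < p := hp1 s hsp
    have key : ∀ y, Live (l s) y → pr s y = pr s x → y = pr (l s) x := by
      intro y hy hyx
      obtain ⟨z, hz, hzy⟩ := hext _ y hy p hlt.le
      have : pr s z = pr s x := by
        rw [← hpr _ _ z (hl1 s), hzy, hyx]
      rw [← hzy]
      exact hsame z hz.1 this _ hlt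
    exact h5 ((key z1 h1 h3).trans (key z2 h2 h4).symm)

/-- A coherent choice of initial segments gives a thread. -/
theorem thread_of_branch (hW : Reg W) {C : W → Set (Set W)} (hC : Coh C) (b : W → Set W)
    (hb : ∀ a, ∃ x, Lim x ∧ a < x ∧ ∃ c ∈ C x, b a = F a c)
    (hcoh : ∀ a a', a ≤ a' → F a (b a') = b a) :
    ∃ D, Thread C D := by
  have hsub : ∀ a a', a ≤ a' → b a ⊆ b a' := by
    intro a a' h
    rw [← hcoh a a' h]
    exact F_sub _ _
  let D : Set W := ⋃ a, b a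
  have hD : ∀ a, F a D = b a := by
    intro a
    ext x
    constructor
    · rintro ⟨hx, h1⟩
      obtain ⟨a', ha'⟩ := Set.mem_iUnion.1 hx
      have hx' : x ∈ b (max a a') := hsub _ _ (le_max_right _ _) ha'
      rw [← hcoh a _ (le_max_left a a')]
      exact ⟨hx', fun y hy hay => h1 y (Set.mem_iUnion.2 ⟨_, hy⟩) hay⟩
    · intro hx
      refine ⟨Set.mem_iUnion.2 ⟨a, hx⟩, fun y hy hay => ?_⟩
      obtain ⟨a', ha'⟩ := Set.mem_iUnion.1 hy
      have hy' : y ∈ b (max a a') := hsub _ _ (le_max_right _ _) ha'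
      have hx' := hx
      rw [← hcoh a _ (le_max_left a a')] at hx'
      exact hx'.2 y hy' hay
  have hcut : ∀ y, Acc D y → ∃ x, Lim x ∧ y < x ∧ ∃ c ∈ C x, D ∩ Set.Iio y = c ∩ Set.Iio y ∧
      F y D = F y c := by
    intro y hy
    obtain ⟨x, hx, hyx, c, hc, hbc⟩ := hb y
    have hFF : F y D = F y c := by rw [hD y, hbc]
    refine ⟨x, hx, hyx, c, hc, ?_, hFF⟩
    ext z
    constructor
    · rintro ⟨hz, hzy⟩
      have : z ∈ F y D := ⟨hz, fun w hw hyw => (lt_trans hzy hyw).le⟩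
      rw [hFF] at this
      exact ⟨this.1, hzy⟩
    · rintro ⟨hz, hzy⟩
      have : z ∈ F y c := ⟨hz, fun w hw hyw => (lt_trans hzy hyw).le⟩
      rw [← hFF] at this
      exact ⟨this.1, hzy⟩
  have hacc : ∀ y (c : Set W), Acc D y → D ∩ Set.Iio y = c ∩ Set.Iio y → Acc c y := by
    intro y c hy h
    have := hy.inter_Iio (le_refl y)
    rw [h] at this
    exact this.mono Set.inter_subset_left
  refine ⟨D, ?_, ?_, ?_⟩
  · intro a
    obtain ⟨x, hx, hax, c, hc, hbc⟩ := hb a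
    obtain ⟨m, hm, ham⟩ := hC.unb x hx c hc a hax
    have hs := first_spec ⟨m, hm, ham⟩
    refine ⟨first a c, Set.mem_iUnion.2 ⟨a, ?_⟩, hs.2⟩
    rw [hbc]
    exact ⟨hs.1, fun y hy hay => first_le hy hay⟩
  · intro y hy
    obtain ⟨x, hx, hyx, c, hc, h1, h2⟩ := hcut y hy
    have hyc : y ∈ c := hC.closed x hx c hc y hyx (hacc y c hy h1)
    have : y ∈ F y c := ⟨hyc, fun w _ h => h.le⟩
    rw [← h2] at this
    exact this.1
  · intro y hy
    obtain ⟨x, hx, hyx, c, hc, h1, h2⟩ := hcut y hy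
    rw [h1]
    exact hC.coh x hx c hc y hyx (hacc y c hy h1)

end Pool.Agent.W877.Sq
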