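import Pool.Agent.W877.Sq.Ideal
import Pool.Agent.W877.Sq.Tree

/-!
Simultaneous reflection gives a thread (abstract form on a well-order).
-/

set_option autoImplicit false
set_option linter.unusedVariables false
set_option linter.unusedSectionVars false
set_option linter.style.haveILetI false
set_option linter.deprecated false

universe v

open Cardinal Set Order

namespace Pool.Agent.W877.Sq

variable {W : Type v} [LinearOrder W] [WellFoundedLT W]

/-- `T` reflects at `x` as seen by the clubs of the sequence. -/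
def RR (C : W → Set (Set W)) (x : W) (T : Set W) : Prop :=
  Lim x ∧ ∀ c ∈ C x, ∀ b < x, ∃ y ∈ T, Acc c y ∧ b < y ∧ y < x

/-- Sets of points at none of which some fixed small family of stationary subsets of `S`
reflects. -/
def KK (C : W → Set (Set W)) (S : Set W) (nu : Cardinal.{v}) (X : Set W) : Prop :=
  ∃ 𝒮 : Set (Set W), #𝒮 ≤ nu ∧ (∀ T ∈ 𝒮, T ⊆ S ∧ IsStationary T) ∧
    ∀ x ∈ X, ∃ T ∈ 𝒮, ¬ RR C x T

theorem KK.mono {C : W → Set (Set W)} {S : Set W} {nu : Cardinal.{v}} {X Y : Set W}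
    (h : X ⊆ Y) (hY : KK C S nu Y) : KK C S nu X := by
  obtain ⟨𝒮, h1, h2, h3⟩ := hY
  exact ⟨𝒮, h1, h2, fun x hx => h3 x (h hx)⟩

theorem KK.iUnion {C : W → Set (Set W)} {S : Set W} {nu : Cardinal.{v}} (hnu : ℵ₀ ≤ nu)
    {ι : Type v} (X : ι → Set W) (hι : #ι ≤ nu) (hX : ∀ i, KK C S nu (X i)) :
    KK C S nu (⋃ i, X i) := by
  choose 𝒮 h1 h2 h3 using hX
  refine ⟨⋃ i, 𝒮 i, ?_, ?_, ?_⟩
  · refine (mk_iUnion_le _).trans ?_
    refine (mul_le_mul' hι (ciSup_le' h1)).trans ?_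
    rw [mul_eq_self hnu]
  · intro T hT
    obtain ⟨i, hi⟩ := Set.mem_iUnion.1 hT
    exact h2 i T hi
  · intro x hx
    obtain ⟨i, hi⟩ := Set.mem_iUnion.1 hx
    obtain ⟨T, hT, h⟩ := h3 i x hi
    exact ⟨T, Set.mem_iUnion.2 ⟨i, hT⟩, h⟩

theorem KK.union {C : W → Set (Set W)} {S : Set W} {nu : Cardinal.{v}} (hnu : ℵ₀ ≤ nu)
    {X Y : Set W} (hX : KK C S nu X) (hY : KK C S nu Y) : KK C S nu (X ∪ Y) := by
  have := KK.iUnion hnu (ι := ULift.{v} Bool) (fun b => if b.down then X else Y)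
    (mk_le_aleph0.trans hnu) (fun b => by
      rcases b with ⟨b⟩
      cases b
      · simpa using hY
      · simpa using hX)
  refine this.mono ?_
  rintro z (hz | hz)
  · exact Set.mem_iUnion.2 ⟨⟨true⟩, by simpa using hz⟩
  · exact Set.mem_iUnion.2 ⟨⟨false⟩, by simpa using hz⟩

/-- The ideal read off through initial segments above `a`. -/
def Null (J : Set W → Prop) (cc : W → Set W) (a : W) (Y : Set (Set W)) : Prop :=
  J {x | Lim x ∧ a < x ∧ F a (cc x) ∈ Y}

/-- From an ideal with small nonempty families of positive initial segments we get a thread. -/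
theorem thread_of_ideal (hW : Reg W) {C : W → Set (Set W)} (hC : Coh C) (cc : W → Set W)
    (hcc : ∀ x, Lim x → cc x ∈ C x) {nu : Cardinal.{v}} (hnu : ℵ₀ ≤ nu)
    (hnuW : succ nu < #W) (J : Set W → Prop) (hmono : ∀ X Y, X ⊆ Y → J Y → J X)
    (hun : ∀ X Y, J X → J Y → J (X ∪ Y)) (hbd : ∀ a, J (Set.Iic a))
    (hne : ∀ a, ∃ z, ¬ Null J cc a {z})
    (hcard : ∀ a, #{z | ¬ Null J cc a {z}} ≤ nu) : ∃ D, Thread C D := by
  classical
  have hemp : J ∅ := hmono _ _ (Set.empty_subset _) (hbd (hW.nonempty.some))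
  have hrep : ∀ a z, ¬ Null J cc a {z} → ∃ x, Lim x ∧ a < x ∧ z = F a (cc x) := by
    intro a z hz
    by_contra hno
    apply hz
    refine hmono _ _ ?_ hemp
    rintro x ⟨hx, hax, h⟩
    exact hno ⟨x, hx, hax, h.symm⟩
  have hdown : ∀ a a', a ≤ a' → ∀ z, ¬ Null J cc a' {z} → ¬ Null J cc a {F a z} := by
    intro a a' haa' z hz hN
    apply hz
    refine hmono _ _ ?_ hN
    rintro x ⟨hx, hax, h⟩
    refine ⟨hx, lt_of_le_of_lt haa' hax, ?_⟩
    rw [Set.mem_singleton_iff] at h ⊢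
    rw [← h, F_F haa']
  obtain ⟨b, hb1, hb2⟩ := branch hW hnu hnuW F (fun a => {z | ¬ Null J cc a {z}})
    (fun a a' z h => F_F h z)
    (fun a z hz => by
      obtain ⟨x, _, _, rfl⟩ := hrep a z hz
      exact F_F le_rfl _)
    hne hcard (fun a a' h z hz => hdown a a' h z hz)
  refine thread_of_branch hW hC b (fun a => ?_) hb2
  obtain ⟨x, hx, hax, h⟩ := hrep a (b a) (hb1 a)
  exact ⟨x, hx, hax, cc x, hcc x hx, h⟩

section Main

variable (hW : Reg W) {C : W → Set (Set W)} (hC : Coh C) (cc : W → Set W)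
  (hcc : ∀ x, Lim x → cc x ∈ C x) {S : Set W} (hS : IsStationary S)
  {nu : Cardinal.{v}} (hnu : ℵ₀ ≤ nu) (hnuW : succ nu < #W)
  (hCS : ∀ y ∈ S, Lim y → #(C y) ≤ nu)

include hW hS in
theorem statS (a : W) : IsStationary {y | y ∈ S ∧ Lim y ∧ a < y} := by
  have h1 := stat_inter_club hW (stat_inter_club hW hS (lim_club hW)) (Ioi_club hW a)
  refine h1.mono ?_
  rintro y ⟨⟨h2, h3⟩, h4⟩
  exact ⟨h2, h3, h4⟩

include hW in
theorem exists_stat {ι : Type v} (hι : #ι < #W) (T : ι → Set W) {T0 : Set W}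
    (hT0 : IsStationary T0) (hsub : T0 ⊆ ⋃ i, T i) : ∃ i, IsStationary (T i) := by
  have h := hT0.mono hsub
  rw [isStationary_iUnion_iff hW.cof_ne (by
    rw [hW.cof]
    simpa using hι)] at h
  exact h

include hC hcc hnu in
/-- (2a) -/
theorem null_of_stat (a : W) (Y : Set (Set W))
    (hT : IsStationary {y | y ∈ S ∧ Lim y ∧ a < y ∧ ∀ c ∈ C y, F a c ∉ Y}) :
    Null (KK C S nu) cc a Y := by
  refine ⟨{{y | y ∈ S ∧ Lim y ∧ a < y ∧ ∀ c ∈ C y, F a c ∉ Y}}, ?_, ?_, ?_⟩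
  · rw [mk_singleton]
    exact one_lt_aleph0.le.trans hnu
  · rintro T rfl
    exact ⟨fun y hy => hy.1, hT⟩
  · rintro x ⟨hx, hax, hxY⟩
    refine ⟨_, rfl, ?_⟩
    rintro ⟨_, hR⟩
    obtain ⟨m, hm, ham⟩ := hC.unb x hx _ (hcc x hx) a hax
    have hmx : m < x := hC.sub x hx _ (hcc x hx) hm
    obtain ⟨y, ⟨hyS, hy, hay, hyc⟩, hacc, hmy, hyx⟩ := hR _ (hcc x hx) m hmx
    apply hyc _ (hC.coh x hx _ (hcc x hx) y hyx hacc)
    rw [F_cut ⟨m, hm, ham, hmy⟩]
    exact hxY

include hW hC hcc hS hnu hnuW hCS in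
/-- (2b) -/
theorem null_sat (a : W) (ι : Type v) (Y : ι → Set (Set W))
    (hdis : ∀ i j, i ≠ j → Disjoint (Y i) (Y j))
    (hpos : ∀ i, ¬ Null (KK C S nu) cc a (Y i)) : #ι ≤ nu := by
  by_contra hlt
  rw [not_le] at hlt
  obtain ⟨p, hp⟩ := le_mk_iff_exists_set.1 (succ_le_of_lt hlt)
  have hns : ∀ i : p, ¬ IsStationary {y | y ∈ S ∧ Lim y ∧ a < y ∧ ∀ c ∈ C y, F a c ∉ Y i.1} :=
    fun i h => hpos i.1 (null_of_stat hC cc hcc hnu a _ h)
  have hnot : ¬ {y | y ∈ S ∧ Lim y ∧ a < y} ⊆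
      ⋃ i : p, {y | y ∈ S ∧ Lim y ∧ a < y ∧ ∀ c ∈ C y, F a c ∉ Y i.1} := by
    intro hsub
    obtain ⟨i, hi⟩ := exists_stat hW (by rw [hp]; exact hnuW) _ (statS hW hS a) hsub
    exact hns i hi
  rw [Set.not_subset] at hnot
  obtain ⟨y, ⟨hyS, hy, hay⟩, hyn⟩ := hnot
  have hc : ∀ i : p, ∃ c : C y, F a c.1 ∈ Y i.1 := by
    intro i
    by_contra hno
    push Not at hno
    exact hyn (Set.mem_iUnion.2 ⟨i, hyS, hy, hay, fun c hc => hno ⟨c, hc⟩⟩)
  choose c hc using hc
  have hinj : Function.Injective c := by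
    intro i j hij
    by_contra hne
    have h1 := hc i
    rw [hij] at h1
    exact Set.disjoint_left.1 (hdis i.1 j.1 (fun h => hne (Subtype.ext h))) h1 (hc j)
  have := (mk_le_of_injective hinj).trans (hCS y hyS hy)
  rw [hp] at this
  exact absurd this (not_le.2 (lt_succ nu))

theorem Null.mono {J : Set W → Prop} (hmono : ∀ X Y, X ⊆ Y → J Y → J X) {cc : W → Set W}
    {a : W} {Y Z : Set (Set W)} (h : Y ⊆ Z) (hZ : Null J cc a Z) : Null J cc a Y := by
  refine hmono _ _ ?_ hZ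
  rintro x ⟨h1, h2, h3⟩
  exact ⟨h1, h2, h h3⟩

theorem Null.iUnion (hnu : ℵ₀ ≤ nu) {ι : Type v} {a : W} (Y : ι → Set (Set W)) (hι : #ι ≤ nu)
    (h : ∀ i, Null (KK C S nu) cc a (Y i)) : Null (KK C S nu) cc a (⋃ i, Y i) := by
  refine KK.mono ?_ (KK.iUnion hnu _ hι h)
  rintro x ⟨h1, h2, h3⟩
  obtain ⟨i, hi⟩ := Set.mem_iUnion.1 h3
  exact Set.mem_iUnion.2 ⟨i, h1, h2, hi⟩

theorem Null.union (hnu : ℵ₀ ≤ nu) {a : W} {Y Z : Set (Set W)}
    (hY : Null (KK C S nu) cc a Y) (hZ : Null (KK C S nu) cc a Z) :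
    Null (KK C S nu) cc a (Y ∪ Z) := by
  refine KK.mono ?_ (KK.union hnu hY hZ)
  rintro x ⟨h1, h2, h3 | h3⟩
  · exact Or.inl ⟨h1, h2, h3⟩
  · exact Or.inr ⟨h1, h2, h3⟩

include hW hC hcc hS hnu hCS in
/-- (2c), by induction along the well-order -/
theorem null_seg (a : W) (r : W) : ∀ Y : W → Set (Set W),
    (∀ i < r, Null (KK C S nu) cc a (Y i)) →
      Null (KK C S nu) cc a (⋃ i : Set.Iio r, Y i.1) := by
  classical
  induction r using WellFoundedLT.induction with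
  | _ r ih =>
    intro Y hY
    by_cases hcase : ∃ A : Set W, A ⊆ Set.Iio r ∧ #A ≤ nu ∧ ∀ i < r, ∃ j ∈ A, i ≤ j
    · obtain ⟨A, hA1, hA2, hA3⟩ := hcase
      have h1 : Null (KK C S nu) cc a (⋃ j : A, ((⋃ i : Set.Iio j.1, Y i.1) ∪ Y j.1)) := by
        apply Null.iUnion cc hnu _ hA2
        intro j
        have hj : j.1 < r := hA1 j.2
        exact Null.union cc hnu (ih j.1 hj Y (fun i hi => hY i (hi.trans hj))) (hY j.1 hj)
      refine Null.mono (fun _ _ => KK.mono) ?_ h1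
      intro z hz
      obtain ⟨i, hi⟩ := Set.mem_iUnion.1 hz
      obtain ⟨j, hj, hij⟩ := hA3 i.1 i.2
      refine Set.mem_iUnion.2 ⟨⟨j, hj⟩, ?_⟩
      rcases hij.lt_or_eq with h | h
      · exact Or.inl (Set.mem_iUnion.2 ⟨⟨i.1, h⟩, hi⟩)
      · right
        change z ∈ Y j
        rw [← h]
        exact hi
    · push Not at hcase
      -- choose an index for each member of the union
      have hidx : ∀ z : Set W, ∃ i : W, z ∈ (⋃ i : Set.Iio r, Y i.1) → i < r ∧ z ∈ Y i := by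
        intro z
        by_cases hz : z ∈ (⋃ i : Set.Iio r, Y i.1)
        · obtain ⟨i, hi⟩ := Set.mem_iUnion.1 hz
          exact ⟨i.1, fun _ => ⟨i.2, hi⟩⟩
        · exact ⟨r, fun h => absurd h hz⟩
      choose idx hidx using hidx
      set U : Set (Set W) := ⋃ i : Set.Iio r, Y i.1 with hU
      let T : W → Set W := fun i =>
        {y | y ∈ S ∧ Lim y ∧ a < y ∧ ∀ c ∈ C y, F a c ∈ U → idx (F a c) < i}
      have hcov : {y | y ∈ S ∧ Lim y ∧ a < y} ⊆ ⋃ i : Set.Iio r, T i.1 := by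
        rintro y ⟨hyS, hy, hay⟩
        let A : Set W := {i | ∃ c ∈ C y, F a c ∈ U ∧ idx (F a c) = i}
        have hAsub : A ⊆ Set.Iio r := by
          rintro i ⟨c, _, hc, rfl⟩
          exact (hidx _ hc).1
        have hAcard : #A ≤ nu := by
          have : A ⊆ (fun c : Set W => idx (F a c)) '' C y := by
            rintro i ⟨c, hc, _, rfl⟩
            exact ⟨c, hc, rfl⟩
          exact (mk_le_mk_of_subset this).trans (mk_image_le.trans (hCS y hyS hy))
        obtain ⟨i, hir, hi⟩ := hcase A hAsub hAcard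
        refine Set.mem_iUnion.2 ⟨⟨i, hir⟩, hyS, hy, hay, fun c hc hcU => ?_⟩
        exact hi _ ⟨c, hc, hcU, rfl⟩
      obtain ⟨i, hi⟩ := exists_stat hW (hW.init r) _ (statS hW hS a) hcov
      have htail : Null (KK C S nu) cc a {z | z ∈ U ∧ i.1 ≤ idx z} := by
        apply null_of_stat hC cc hcc hnu a
        refine hi.mono ?_
        rintro y ⟨h1, h2, h3, h4⟩
        refine ⟨h1, h2, h3, fun c hc hcY => ?_⟩
        exact absurd (h4 c hc hcY.1) (not_lt.2 hcY.2)
      have hhead := ih i.1 i.2 Y (fun j hj => hY j (hj.trans i.2))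
      refine Null.mono (fun _ _ => KK.mono) ?_ (Null.union cc hnu htail hhead)
      intro z hz
      rcases le_or_gt i.1 (idx z) with h | h
      · exact Or.inl ⟨hz, h⟩
      · exact Or.inr (Set.mem_iUnion.2 ⟨⟨idx z, h⟩, (hidx z hz).2⟩)

include hW hC hcc hS hnu hCS in
theorem null_complete (a : W) (ι : Type v) (Y : ι → Set (Set W)) (hι : #ι < #W)
    (hY : ∀ i, Null (KK C S nu) cc a (Y i)) : Null (KK C S nu) cc a (⋃ i, Y i) := by
  classical
  obtain ⟨e⟩ : Nonempty (ι ↪ W) := by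
    rw [← Cardinal.le_def]
    exact hι.le
  obtain ⟨r, hr⟩ := hW.bound_fun hι e
  have hemp : Null (KK C S nu) cc a ∅ := by
    have := Null.iUnion (C := C) (S := S) cc hnu (ι := PEmpty) (a := a) (fun _ => ∅)
      (mk_le_aleph0.trans hnu) (fun i => i.elim)
    simpa using this
  have h := null_seg hW hC cc hcc hS hnu hCS a r
    (fun j => if h : ∃ i, e i = j then Y h.choose else ∅) (by
      intro j _
      by_cases hj : ∃ i, e i = j
      · simp only [dif_pos hj]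
        exact hY _
      · simp only [dif_neg hj]
        exact hemp)
  refine Null.mono (fun _ _ => KK.mono) ?_ h
  intro z hz
  obtain ⟨i, hi⟩ := Set.mem_iUnion.1 hz
  refine Set.mem_iUnion.2 ⟨⟨e i, hr i⟩, ?_⟩
  have hex : ∃ i', e i' = e i := ⟨i, rfl⟩
  simp only [dif_pos hex]
  rw [e.injective hex.choose_spec]
  exact hi

include hW hS hC hnu in
theorem KK_bdd (a : W) : KK C S nu (Set.Iic a) := by
  refine ⟨{{y | y ∈ S ∧ Lim y ∧ a < y}}, ?_, ?_, ?_⟩
  · rw [mk_singleton]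
    exact one_lt_aleph0.le.trans hnu
  · rintro T rfl
    exact ⟨fun y hy => hy.1, statS hW hS a⟩
  · intro x hx
    refine ⟨_, rfl, ?_⟩
    rintro ⟨hl, hR⟩
    obtain ⟨c, hc⟩ := hC.ne x hl
    obtain ⟨b, hb⟩ := hl.1
    obtain ⟨y, ⟨_, _, hay⟩, _, _, hyx⟩ := hR c hc b hb
    exact absurd (lt_trans hay hyx) (not_lt.2 hx)

include hS hnu in
theorem KK_nonlim : KK C S nu {x | ¬ Lim x} := by
  refine ⟨{S}, ?_, ?_, ?_⟩
  · rw [mk_singleton]
    exact one_lt_aleph0.le.trans hnu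
  · rintro T rfl
    exact ⟨le_rfl, hS⟩
  · intro x hx
    exact ⟨_, rfl, fun h => hx h.1⟩

include hW hC hcc hS hnu hnuW hCS in
theorem null_good (hK : ¬ KK C S nu Set.univ) (a : W) :
    GoodIdl (Null (KK C S nu) cc a) #W nu where
  mono := Null.mono (fun _ _ => KK.mono)
  proper := by
    intro h
    apply hK
    refine KK.mono ?_ (KK.union hnu h (KK.union hnu (KK_bdd hW hC hS hnu a) (KK_nonlim hS hnu)))
    intro x _
    by_cases hx : Lim x
    · rcases lt_or_ge a x with h1 | h1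
      · exact Or.inl ⟨hx, h1, Set.mem_univ _⟩
      · exact Or.inr (Or.inl h1)
    · exact Or.inr (Or.inr hx)
  complete := null_complete hW hC cc hcc hS hnu hCS a
  sat := null_sat hW hC cc hcc hS hnu hnuW hCS a

include hW hC hS hnu hnuW hCS in
/-- Main theorem, abstract form. -/
theorem exists_thread (hw : ∀ x, Lim x → #(C x) < #W)
    (hRefl : ∀ 𝒮 : Set (Set W), #𝒮 ≤ nu → (∀ T ∈ 𝒮, T ⊆ S ∧ IsStationary T) →
      ∃ x, ∀ T ∈ 𝒮, RR C x T) :
    ∃ D, Thread C D := by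
  classical
  have hnuW' : nu < #W := (lt_succ nu).trans hnuW
  have hK : ¬ KK C S nu Set.univ := by
    rintro ⟨𝒮, h1, h2, h3⟩
    obtain ⟨x, hx⟩ := hRefl 𝒮 h1 h2
    obtain ⟨T, hT, h⟩ := h3 x (Set.mem_univ _)
    exact h (hx T hT)
  have hch : ∀ x, ∃ c : Set W, Lim x → c ∈ C x := by
    intro x
    by_cases hx : Lim x
    · obtain ⟨c, hc⟩ := hC.ne x hx
      exact ⟨c, fun _ => hc⟩
    · exact ⟨∅, fun h => absurd h hx⟩
  choose cc hcc using hch
  have hgood := null_good hW hC cc hcc hS hnu hnuW hCS hK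
  by_cases hcase : ∀ a, ∃ z, ¬ Null (KK C S nu) cc a {z}
  · -- all levels have atoms
    refine thread_of_ideal hW hC cc hcc hnu hnuW (KK C S nu) (fun _ _ => KK.mono)
      (fun _ _ => KK.union hnu) (KK_bdd hW hC hS hnu) hcase (fun a => ?_)
    apply (hgood a).sat _ (fun z : {z | ¬ Null (KK C S nu) cc a {z}} => {z.1})
    · intro z z' hne
      rw [Set.disjoint_singleton]
      exact fun h => hne (Subtype.ext h)
    · intro z
      exact z.2
  · push Not at hcase
    obtain ⟨a0, ha0⟩ := hcase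
    -- the function `first a0` is unbounded
    have hunb : Unb (Null (KK C S nu) cc a0) Set.univ (first a0) := by
      intro r
      have hsmall := (hgood a0).small (F_few hW hC hw a0 r) ha0
      refine KK.mono ?_ hsmall
      rintro x ⟨hx, hax, hxr⟩
      refine ⟨hx, hax, x, hx, hax, cc x, hcc x hx, rfl, ?_⟩
      obtain ⟨m, hm, ham⟩ := hC.unb x hx _ (hcc x hx) a0 hax
      rw [← first_F ⟨m, hm, ham⟩]
      exact hxr.2
    obtain ⟨X, f, hX, hf, hmin⟩ := exists_min (hgood a0) hW.unc hnuW' (first a0) hunb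
    -- the normal ideal on `W`
    let J : Set W → Prop := fun E => Null (KK C S nu) cc a0 {z | z ∈ X ∧ f z ∈ E}
    have hJ : GoodIdl J #W nu := (hgood a0).push f hX
    have hJbd : ∀ r, J (Set.Iic r) := fun r => hf r
    have hJnorm : ∀ E : Set W, ¬ J E → ∀ g : W → W, (∀ x ∈ E, g x < x) →
        ∃ r, ¬ J {x | x ∈ E ∧ g x ≤ r} := by
      intro E hE g hg
      by_contra hno
      push Not at hno
      refine hmin {z | z ∈ X ∧ f z ∈ E} (fun z hz => hz.1) hE (fun z => g (f z))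
        (fun z hz => hg _ hz.2) (fun r => ?_)
      refine (hgood a0).mono ?_ (hno r)
      rintro z ⟨⟨h1, h2⟩, h3⟩
      exact ⟨h1, h2, h3⟩
    have hJun : ∀ X Y, J X → J Y → J (X ∪ Y) := fun _ _ => hJ.union hW.unc.le
    have hJnl : J {x | ¬ Lim x} := by
      by_contra hpos
      obtain ⟨x0⟩ := hW.nonempty
      have hE' : ¬ J {x | ¬ Lim x ∧ ∃ b, b < x} := by
        intro h
        apply hpos
        refine hJ.mono ?_ (hJun _ _ h (hJbd x0))
        intro x hx
        by_cases hb : ∃ b, b < x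
        · exact Or.inl ⟨hx, hb⟩
        · right
          rw [Set.mem_Iic]
          by_contra hlt
          exact hb ⟨x0, not_le.1 hlt⟩
      have hg : ∀ x : W, ∃ b, (¬ Lim x ∧ ∃ b, b < x) → b < x ∧ ∀ z, b < z → x ≤ z := by
        intro x
        by_cases hx : ¬ Lim x ∧ ∃ b, b < x
        · have : ¬ ∀ b < x, ∃ z ∈ (Set.univ : Set W), b < z ∧ z < x := fun h => hx.1 ⟨hx.2, h⟩
          push Not at this
          obtain ⟨b, hb, h⟩ := this
          exact ⟨b, fun _ => ⟨hb, fun z hz => h z (Set.mem_univ _) hz⟩⟩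
        · exact ⟨x, fun h => absurd h hx⟩
      choose g hg using hg
      obtain ⟨r, hr⟩ := hJnorm _ hE' g (fun x hx => (hg x hx).1)
      obtain ⟨r', hr'⟩ := hW.exists_gt r
      apply hr
      refine hJ.mono ?_ (hJbd r')
      rintro x ⟨hx, hxr⟩
      exact (hg x hx).2 r' (lt_of_le_of_lt hxr hr')
    -- apply the thread construction
    refine thread_of_ideal hW hC cc hcc hnu hnuW J (fun _ _ => hJ.mono) hJun hJbd ?_ ?_
    · intro a
      by_contra hno
      push Not at hno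
      have hE : ¬ J {x | Lim x ∧ a < x} := by
        intro h
        apply hJ.proper
        refine hJ.mono ?_ (hJun _ _ h (hJun _ _ hJnl (hJbd a)))
        intro x _
        by_cases hx : Lim x
        · rcases lt_or_ge a x with h1 | h1
          · exact Or.inl ⟨hx, h1⟩
          · exact Or.inr (Or.inr h1)
        · exact Or.inr (Or.inl hx)
      have hfirst : ∀ x, Lim x → a < x → (∃ y, y ∈ cc x ∧ a < y) := by
        intro x hx hax
        obtain ⟨m, hm, ham⟩ := hC.unb x hx _ (hcc x hx) a hax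
        exact ⟨m, hm, ham⟩
      obtain ⟨r, hr⟩ := hJnorm _ hE (fun x => first a (cc x)) (fun x hx =>
        hC.sub x hx.1 _ (hcc x hx.1) (first_spec (hfirst x hx.1 hx.2)).1)
      apply hr
      refine hJ.mono ?_ (hJ.complete _ (fun z : {z : Set W | ∃ x, Lim x ∧ a < x ∧
        ∃ c ∈ C x, z = F a c ∧ first a c ≤ r} => {x | Lim x ∧ a < x ∧ F a (cc x) ∈ ({z.1} : Set _)})
        (F_few hW hC hw a r) (fun z => hno z.1))
      rintro x ⟨⟨hx, hax⟩, hxr⟩
      exact Set.mem_iUnion.2 ⟨⟨F a (cc x), x, hx, hax, cc x, hcc x hx, rfl, hxr⟩, hx, hax, rfl⟩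
    · intro a
      apply hJ.sat _ (fun z : {z | ¬ Null J cc a {z}} =>
        {x | Lim x ∧ a < x ∧ F a (cc x) ∈ ({z.1} : Set _)})
      · intro z z' hne
        rw [Set.disjoint_left]
        rintro x ⟨_, _, h1⟩ ⟨_, _, h2⟩
        rw [Set.mem_singleton_iff] at h1 h2
        exact hne (Subtype.ext (h1.symm.trans h2))
      · intro z
        exact z.2

end Main

end Pool.Agent.W877.Sq
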