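import Pool.Agent.W877.Sq.Defs
import Pool.Agent.W877.Sq.Refl

/-!
Transfer of the abstract theorem to sets of ordinals.
-/

set_option autoImplicit false
set_option linter.unusedVariables false
set_option linter.unusedSectionVars false
set_option linter.style.haveILetI false
set_option linter.deprecated false

universe u

open Cardinal Set Order

namespace Pool.Agent.W877.Sq

theorem sup_iff {A : Set Ordinal.{u}} {β : Ordinal.{u}} (h0 : β ≠ 0) :
    β = sSup (A ∩ Set.Iio β) ↔ ∀ b < β, ∃ z ∈ A, b < z ∧ z < β := by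
  have hbdd : BddAbove (A ∩ Set.Iio β) := ⟨β, fun z hz => hz.2.le⟩
  constructor
  · intro h b hb
    have hne : (A ∩ Set.Iio β).Nonempty := by
      by_contra hno
      rw [Set.not_nonempty_iff_eq_empty] at hno
      rw [hno, csSup_empty] at h
      exact h0 h
    rw [h] at hb
    obtain ⟨z, hz, hbz⟩ := exists_lt_of_lt_csSup hne hb
    exact ⟨z, hz.1, hbz, hz.2⟩
  · intro h
    apply le_antisymm
    · by_contra hlt
      rw [not_le] at hlt
      obtain ⟨z, hz, h1, h2⟩ := h _ hlt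
      exact absurd (le_csSup hbdd ⟨hz, h2⟩) (not_le.2 h1)
    · exact csSup_le' (fun z hz => hz.2.le)

theorem mem_acc_of {A : Set Ordinal.{u}} {β x : Ordinal.{u}} (hA : A ⊆ Set.Iio x) (h0 : β ≠ 0)
    (hlt : ∃ z ∈ A, β ≤ z) (h : ∀ b < β, ∃ z ∈ A, b < z ∧ z < β) : β ∈ acc A := by
  refine ⟨?_, (sup_iff h0).2 h⟩
  obtain ⟨z, hz, hbz⟩ := hlt
  have h1 : z + 1 ≤ sSup ((fun α => α + 1) '' A) := by
    apply le_csSup
    · refine ⟨x, ?_⟩
      rintro _ ⟨w, hw, rfl⟩
      exact Order.add_one_le_of_lt (hA hw)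
    · exact ⟨z, hz, rfl⟩
  exact lt_of_lt_of_le (lt_of_le_of_lt hbz (lt_add_one z)) h1

section Transfer

variable {lam : Cardinal.{u}}

/-- The image of a subset of the type `Iio lam.ord` as a set of ordinals. -/
def up (c : Set (Set.Iio lam.ord)) : Set Ordinal.{u} := Subtype.val '' c

theorem up_mem {c : Set (Set.Iio lam.ord)} {z : Set.Iio lam.ord} : z.1 ∈ up c ↔ z ∈ c := by
  constructor
  · rintro ⟨w, hw, h⟩
    rwa [Subtype.ext h] at hw
  · intro h
    exact ⟨z, h, rfl⟩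

theorem up_sub (c : Set (Set.Iio lam.ord)) : up c ⊆ Set.Iio lam.ord := by
  rintro _ ⟨z, _, rfl⟩
  exact z.2

theorem up_pre {c : Set Ordinal.{u}} (hc : c ⊆ Set.Iio lam.ord) :
    up (lam := lam) (Subtype.val ⁻¹' c) = c := by
  ext z
  constructor
  · rintro ⟨w, hw, rfl⟩
    exact hw
  · intro h
    exact ⟨⟨z, hc h⟩, h, rfl⟩

theorem up_inter (c : Set (Set.Iio lam.ord)) (y : Set.Iio lam.ord) :
    up (c ∩ Set.Iio y) = up c ∩ Set.Iio y.1 := by
  ext z
  constructor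
  · rintro ⟨w, hw, rfl⟩
    exact ⟨⟨w, hw.1, rfl⟩, hw.2⟩
  · rintro ⟨⟨w, hw, rfl⟩, h⟩
    exact ⟨w, ⟨hw, h⟩, rfl⟩

theorem up_inj : Function.Injective (up (lam := lam)) :=
  Set.image_injective.2 Subtype.val_injective

theorem acc_up {c : Set (Set.Iio lam.ord)} {y : Set.Iio lam.ord} :
    Acc c y ↔ y.1 ≠ 0 ∧ ∀ b < y.1, ∃ z ∈ up c, b < z ∧ z < y.1 := by
  constructor
  · rintro ⟨⟨b, hb⟩, h⟩
    refine ⟨?_, fun b' hb' => ?_⟩
    · intro h0
      have : b.1 < y.1 := hb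
      rw [h0] at this
      exact absurd this (not_lt.2 zero_le)
    · obtain ⟨z, hz, h1, h2⟩ := h ⟨b', lt_trans hb' y.2⟩ hb'
      exact ⟨z.1, ⟨z, hz, rfl⟩, h1, h2⟩
  · rintro ⟨h0, h⟩
    have hy : y.1 < lam.ord := y.2
    refine ⟨⟨⟨0, (pos_iff_ne_zero.2 h0).trans hy⟩, ?_⟩, fun b hb => ?_⟩
    · exact pos_iff_ne_zero.2 h0
    · obtain ⟨_, ⟨z, hz, rfl⟩, h1, h2⟩ := h b.1 hb
      exact ⟨z, hz, h1, h2⟩

theorem mk_W : #(Set.Iio lam.ord) = Cardinal.lift.{u + 1} lam := by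
  rw [Cardinal.mk_Iio_ordinal, card_ord]

theorem reg_W (hreg : lam.IsRegular) (hunc : ℵ₀ < lam) : Reg (Set.Iio lam.ord) where
  cof := by
    rw [Ordinal.cof_Iio, ← Ordinal.lift_cof, hreg.cof_ord, mk_W]
  reg := by
    rw [mk_W]
    exact hreg.lift
  unc := by
    rw [mk_W]
    exact aleph0_lt_lift.2 hunc
  init := by
    intro x
    have h1 : #(Set.Iio x) ≤ #(Set.Iio x.1) := by
      refine mk_le_of_injective (f := fun y : Set.Iio x => (⟨y.1.1, y.2⟩ : Set.Iio x.1)) ?_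
      intro y z h
      have h' : y.1.1 = z.1.1 := congrArg (fun w : Set.Iio x.1 => w.1) h
      exact Subtype.ext (Subtype.ext h')
    refine lt_of_le_of_lt h1 ?_
    rw [mk_W, Cardinal.mk_Iio_ordinal, Cardinal.lift_lt]
    exact lt_ord.1 x.2

/-- The transferred sequence. -/
def CC (lam : Cardinal.{u}) (C : Ordinal.{u} → Set (Set Ordinal.{u})) (x : Set.Iio lam.ord) :
    Set (Set (Set.Iio lam.ord)) := {c | up c ∈ C x.1}

theorem coh_CC {eta : Cardinal.{u}} {C : Ordinal.{u} → Set (Set Ordinal.{u})}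
    (hC : IsCoherentSeq lam eta C) : Coh (CC lam C) where
  ne := by
    intro x hx
    obtain ⟨c, hc⟩ := hC.nonempty x.1 x.2
    refine ⟨Subtype.val ⁻¹' c, ?_⟩
    change up _ ∈ C x.1
    rw [up_pre]
    · exact hc
    · intro z hz
      have h1 : z < x.1 := (hC.club x.1 x.2 c hc).1 hz
      have h2 : x.1 < lam.ord := x.2
      exact h1.trans h2
  sub := by
    intro x hx c hc z hz
    exact (hC.club x.1 x.2 _ hc).1 (up_mem.2 hz)
  unb := by
    intro x hx c hc b hb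
    obtain ⟨z, _, h1, h2⟩ := hx.2 b hb
    obtain ⟨_, ⟨w, hw, rfl⟩, h⟩ := (hC.club x.1 x.2 _ hc).2.1 z.1 h2
    exact ⟨w, hw, lt_of_lt_of_le h1 h⟩
  closed := by
    intro x hx c hc y hyx hy
    have h1 := acc_up.1 hy
    have h2 := (sup_iff h1.1).2 h1.2
    have h3 := (hC.club x.1 x.2 _ hc).2.2 (up c ∩ Set.Iio y.1) Set.inter_subset_left (by
      obtain ⟨z, hz, _, hz'⟩ := h1.2 0 (pos_iff_ne_zero.2 h1.1)
      exact ⟨z, hz, hz'⟩) (by rw [← h2]; exact hyx)
    rw [← h2] at h3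
    exact up_mem.1 h3
  coh := by
    intro x hx c hc y hyx hy
    have h1 := acc_up.1 hy
    change up _ ∈ C y.1
    rw [up_inter]
    apply hC.coherent x.1 x.2 _ hc
    refine mem_acc_of (hC.club x.1 x.2 _ hc).1 h1.1 ?_ h1.2
    exact (hC.club x.1 x.2 _ hc).2.1 y.1 hyx

theorem thread_up (hreg : lam.IsRegular) (hunc : ℵ₀ < lam) {eta : Cardinal.{u}}
    {C : Ordinal.{u} → Set (Set Ordinal.{u})}
    (hC : IsCoherentSeq lam eta C) {D : Set (Set.Iio lam.ord)} (hD : Thread (CC lam C) D) :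
    IsThread lam C (up D) := by
  have h0lt : (0 : Ordinal.{u}) < lam.ord := hreg.ord_pos
  refine ⟨⟨up_sub D, ?_, ?_⟩, ?_⟩
  · intro β hβ
    obtain ⟨z, hz, h⟩ := hD.1 ⟨β, hβ⟩
    exact ⟨z.1, ⟨z, hz, rfl⟩, le_of_lt h⟩
  · intro A hA hne hlt
    by_cases hmem : sSup A ∈ A
    · exact hA hmem
    · have hbdd : BddAbove A := ⟨lam.ord, fun z hz => le_of_lt (up_sub D (hA hz))⟩
      have hltA : ∀ z ∈ A, z < sSup A := fun z hz =>
        lt_of_le_of_ne (le_csSup hbdd hz) (fun h => hmem (h ▸ hz))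
      have : Acc D ⟨sSup A, hlt⟩ := by
        rw [acc_up]
        refine ⟨?_, fun b hb => ?_⟩
        · obtain ⟨z, hz⟩ := hne
          exact (lt_of_le_of_lt zero_le (hltA z hz)).ne'
        · obtain ⟨z, hz, hbz⟩ := exists_lt_of_lt_csSup hne hb
          exact ⟨z, hA hz, hbz, hltA z hz⟩
      exact up_mem.2 (hD.2.1 _ this)
  · intro α hα
    have hαlt : α < lam.ord := by
      refine lt_of_lt_of_le hα.1 (csSup_le' ?_)
      rintro _ ⟨z, hz, rfl⟩
      exact Order.add_one_le_of_lt (up_sub D hz)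
    by_cases h0 : α = 0
    · subst h0
      have h1 : up D ∩ Set.Iio 0 = ∅ := by
        ext z
        simp
      rw [h1]
      obtain ⟨c, hc⟩ := hC.nonempty 0 h0lt
      have h2 : c = ∅ := by
        ext z
        constructor
        · intro hz
          have h3 : z < 0 := (hC.club 0 h0lt c hc).1 hz
          exact absurd h3 (not_lt.2 zero_le)
        · intro hz
          exact absurd hz (Set.notMem_empty z)
      rw [← h2]
      exact hc
    · have h1 := (sup_iff h0).1 hα.2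
      have h2 : Acc D ⟨α, hαlt⟩ := acc_up.2 ⟨h0, h1⟩
      have h3 := hD.2.2 _ h2
      change up _ ∈ C α at h3
      rw [up_inter] at h3
      exact h3

theorem stat_down {S : Set Ordinal.{u}} (hreg : lam.IsRegular) (hunc : ℵ₀ < lam)
    (hS : IsStationaryIn S lam.ord) :
    IsStationary (Subtype.val ⁻¹' S : Set (Set.Iio lam.ord)) := by
  intro t ht
  have hW := reg_W hreg hunc
  haveI := hW.noMax
  have hclub : IsClubIn (up t) lam.ord := by
    refine ⟨up_sub t, ?_, ?_⟩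
    · intro β hβ
      obtain ⟨z, hz, h⟩ := isClub_unb ht ⟨β, hβ⟩
      exact ⟨z.1, ⟨z, hz, rfl⟩, le_of_lt h⟩
    · intro A hA hne hlt
      by_cases hmem : sSup A ∈ A
      · exact hA hmem
      · have hbdd : BddAbove A := ⟨lam.ord, fun z hz => le_of_lt (up_sub t (hA hz))⟩
        have hltA : ∀ z ∈ A, z < sSup A := fun z hz =>
          lt_of_le_of_ne (le_csSup hbdd hz) (fun h => hmem (h ▸ hz))
        have : Acc t ⟨sSup A, hlt⟩ := by
          rw [acc_up]
          refine ⟨?_, fun b hb => ?_⟩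
          · obtain ⟨z, hz⟩ := hne
            exact (lt_of_le_of_lt zero_le (hltA z hz)).ne'
          · obtain ⟨z, hz, hbz⟩ := exists_lt_of_lt_csSup hne hb
            exact ⟨z, hA hz, hbz, hltA z hz⟩
        exact up_mem.2 (isClub_mem_of_acc ht this)
  obtain ⟨_, hzS, ⟨z, hz, rfl⟩⟩ := hS.2 _ hclub
  exact ⟨z, hzS, hz⟩

theorem stat_up {T : Set (Set.Iio lam.ord)} (hreg : lam.IsRegular) (hunc : ℵ₀ < lam)
    (hT : IsStationary T) : IsStationaryIn (up T) lam.ord := by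
  refine ⟨up_sub T, fun c hc => ?_⟩
  have hW := reg_W hreg hunc
  have hclub : IsClub (Subtype.val ⁻¹' c : Set (Set.Iio lam.ord)) := by
    apply isClub_of
    · intro b
      obtain ⟨b', hb'⟩ := hW.exists_gt b
      obtain ⟨z, hz, h⟩ := hc.2.1 b'.1 b'.2
      exact ⟨⟨z, hc.1 hz⟩, hz, lt_of_lt_of_le hb' h⟩
    · intro y hy
      have h1 := acc_up.1 hy
      rw [up_pre hc.1] at h1
      have h2 := (sup_iff h1.1).2 h1.2
      have h3 := hc.2.2 (c ∩ Set.Iio y.1) Set.inter_subset_left (by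
        obtain ⟨z, hz, _, hz'⟩ := h1.2 0 (pos_iff_ne_zero.2 h1.1)
        exact ⟨z, hz, hz'⟩) (by rw [← h2]; exact y.2)
      rw [← h2] at h3
      exact h3
  obtain ⟨z, hzT, hz⟩ := hT hclub
  exact ⟨z.1, ⟨z, hzT, rfl⟩, hz⟩

/-- Limit points above `b` of a club form a club, at points of uncountable cofinality. -/
theorem limits_club {c : Set Ordinal.{u}} {α b : Ordinal.{u}} (hc : IsClubIn c α)
    (hcof : ℵ₀ < α.cof) (hb : b < α) :
    IsClubIn {y | b < y ∧ y < α ∧ ∀ d < y, ∃ z ∈ c, d < z ∧ z < y} α := by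
  have hlim : Order.IsSuccLimit α := by
    rw [← Ordinal.aleph0_le_cof]
    exact hcof.le
  refine ⟨fun y hy => hy.2.1, ?_, ?_⟩
  · intro β hβ
    have hnext : ∀ y : Set.Iio α, ∃ z : Set.Iio α, z.1 ∈ c ∧ y.1 < z.1 := by
      intro y
      have hs : y.1 + 1 < α := hlim.add_one_lt y.2
      obtain ⟨z, hz, h⟩ := hc.2.1 _ hs
      exact ⟨⟨z, hc.1 hz⟩, hz, lt_of_lt_of_le (lt_add_one _) h⟩
    choose f hf1 hf2 using hnext
    let s : ℕ → Set.Iio α := fun n => f^[n] (f ⟨max b β, max_lt hb hβ⟩)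
    have hs : ∀ n, (s n).1 < (s (n + 1)).1 := fun n => by
      simp only [s, Function.iterate_succ_apply']
      exact hf2 _
    have hsc : ∀ n, (s n).1 ∈ c := fun n => by
      cases n with
      | zero => exact hf1 _
      | succ n =>
        simp only [s, Function.iterate_succ_apply']
        exact hf1 _
    have hs0 : max b β < (s 0).1 := hf2 ⟨max b β, max_lt hb hβ⟩
    have hbdd : BddAbove (Set.range fun n => (s n).1) :=
      ⟨α, by rintro _ ⟨n, rfl⟩; exact (s n).2.le⟩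
    have hsup : (⨆ n, (s n).1) < α := by
      apply Ordinal.lift_iSup_lt_of_lt_cof
      · simpa using hcof
      · exact fun n => (s n).2
    have hle : ∀ n, (s n).1 ≤ ⨆ n, (s n).1 := fun n => le_ciSup hbdd n
    refine ⟨⨆ n, (s n).1, ⟨?_, hsup, ?_⟩, ?_⟩
    · exact lt_of_lt_of_le (lt_of_le_of_lt (le_max_left _ _) hs0) (hle 0)
    · intro d hd
      obtain ⟨n, hn⟩ := exists_lt_of_lt_ciSup hd
      exact ⟨(s n).1, hsc n, hn, lt_of_lt_of_le (hs n) (hle _)⟩
    · exact ((le_max_right _ _).trans hs0.le).trans (hle 0)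
  · intro A hA hne hlt
    have hbdd : BddAbove A := ⟨α, fun z hz => le_of_lt (hA hz).2.1⟩
    refine ⟨?_, hlt, ?_⟩
    · obtain ⟨z, hz⟩ := hne
      exact lt_of_lt_of_le (hA hz).1 (le_csSup hbdd hz)
    · intro d hd
      obtain ⟨z, hz, hdz⟩ := exists_lt_of_lt_csSup hne hd
      obtain ⟨w, hw, h1, h2⟩ := (hA hz).2.2 d hdz
      exact ⟨w, hw, h1, lt_of_lt_of_le h2 (le_csSup hbdd hz)⟩

theorem RR_of_reflects {eta : Cardinal.{u}} {C : Ordinal.{u} → Set (Set Ordinal.{u})}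
    (hC : IsCoherentSeq lam eta C) {T : Set (Set.Iio lam.ord)} {x : Set.Iio lam.ord}
    (hR : ReflectsAt (up T) x.1) : RR (CC lam C) x T := by
  obtain ⟨hcof, hst⟩ := hR
  have hlim : Order.IsSuccLimit x.1 := by
    rw [← Ordinal.aleph0_le_cof]
    exact hcof.le
  have h0 : x.1 ≠ 0 := by
    intro h
    rw [h, Ordinal.cof_zero] at hcof
    exact absurd hcof (by simp)
  refine ⟨?_, ?_⟩
  · rw [Lim, acc_up]
    refine ⟨h0, fun b hb => ?_⟩
    have hb1 : b + 1 < x.1 := hlim.add_one_lt hb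
    exact ⟨b + 1, up_mem.2 (Set.mem_univ (⟨b + 1, lt_trans hb1 x.2⟩ : Set.Iio lam.ord)),
      lt_add_one b, hb1⟩
  · intro c hc b hb
    have hcl := limits_club (hC.club x.1 x.2 _ hc) hcof hb
    obtain ⟨_, ⟨⟨y, hyT, rfl⟩, hyx⟩, h1, h2, h3⟩ := hst.2 _ hcl
    refine ⟨y, hyT, ?_, h1, h2⟩
    rw [acc_up]
    exact ⟨(lt_of_le_of_lt zero_le h1).ne', h3⟩

/-- Simultaneous reflection of fewer than `kappa` stationary subsets of `S` gives a thread
through each coherent sequence of width `< kappa`. -/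
theorem thread_of_refl {kappa : Cardinal.{u}} (hkappa : ℵ₀ < kappa) (hkl : kappa < lam)
    (hreg : lam.IsRegular) {C : Ordinal.{u} → Set (Set Ordinal.{u})}
    (hC : IsCoherentSeq lam kappa C) {S : Set Ordinal.{u}} (hS : IsStationaryIn S lam.ord)
    (hR : ReflLt lam kappa S) : ∃ D, IsThread lam C D := by
  classical
  have hunc : ℵ₀ < lam := hkappa.trans hkl
  have hW := reg_W hreg hunc
  have hwid : ∀ x : Set.Iio lam.ord, #(CC lam C x) < Cardinal.lift.{u + 1} kappa := by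
    intro x
    refine lt_of_le_of_lt ?_ (hC.width x.1 x.2)
    refine mk_le_of_injective (f := fun c : CC lam C x => (⟨up c.1, c.2⟩ : C x.1)) ?_
    intro c d h
    exact Subtype.ext (up_inj (congrArg Subtype.val h))
  -- pigeonhole on the number of clubs
  let T : Set.Iio kappa → Set (Set.Iio lam.ord) := fun m =>
    {x | x.1 ∈ S ∧ #(CC lam C x) = Cardinal.lift.{u + 1} m.1}
  have hcov : (Subtype.val ⁻¹' S : Set (Set.Iio lam.ord)) ⊆ ⋃ m, T m := by
    intro x hx
    obtain ⟨m, hm⟩ := Cardinal.mem_range_lift_of_le (hwid x).le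
    refine Set.mem_iUnion.2 ⟨⟨m, ?_⟩, hx, hm.symm⟩
    have := hwid x
    rw [← hm, Cardinal.lift_lt] at this
    exact this
  have hkc : #(Set.Iio kappa) < #(Set.Iio lam.ord) := by
    have h1 : #(Set.Iio kappa) ≤ #(Set.Iio kappa.ord) := by
      refine mk_le_of_injective
        (f := fun m : Set.Iio kappa => (⟨m.1.ord, ord_lt_ord.2 m.2⟩ : Set.Iio kappa.ord)) ?_
      intro m n h
      exact Subtype.ext (ord_injective (congrArg Subtype.val h))
    refine lt_of_le_of_lt h1 ?_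
    rw [Cardinal.mk_Iio_ordinal, card_ord, mk_W, Cardinal.lift_lt]
    exact hkl
  obtain ⟨m, hm⟩ := exists_stat hW hkc T (stat_down hreg hunc hS) hcov
  have hmk : Cardinal.lift.{u + 1} m.1 < Cardinal.lift.{u + 1} kappa :=
    Cardinal.lift_lt.2 m.2
  have hnuk : max (Cardinal.lift.{u + 1} m.1) ℵ₀ < Cardinal.lift.{u + 1} kappa :=
    max_lt hmk (aleph0_lt_lift.2 hkappa)
  have hkW : Cardinal.lift.{u + 1} kappa < #(Set.Iio lam.ord) := by
    rw [mk_W, Cardinal.lift_lt]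
    exact hkl
  obtain ⟨D, hD⟩ := exists_thread hW (coh_CC hC) hm (nu := max (Cardinal.lift.{u + 1} m.1) ℵ₀)
    (le_max_right _ _) (lt_of_le_of_lt (succ_le_of_lt hnuk) hkW)
    (fun y hy _ => by
      rw [hy.2]
      exact le_max_left _ _)
    (fun x _ => (hwid x).trans hkW)
    (by
      intro F hF hFT
      obtain ⟨α, hα, h⟩ := hR (up '' F) (lt_of_le_of_lt (mk_image_le.trans hF) hnuk) (by
        rintro _ ⟨A, hA, rfl⟩
        refine ⟨?_, stat_up hreg hunc (hFT A hA).2⟩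
        rintro _ ⟨z, hz, rfl⟩
        exact ((hFT A hA).1 hz).1)
      refine ⟨⟨α, hα⟩, fun A hA => RR_of_reflects hC (h _ ⟨A, hA, rfl⟩)⟩)
  exact ⟨up D, thread_up hreg hunc hC hD⟩

end Transfer

end Pool.Agent.W877.Sq
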