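import Pool.Agent.W877.Sq.Basic

/-!
Complete saturated ideals and least unbounded functions.
-/

set_option autoImplicit false
set_option linter.unusedVariables false
set_option linter.unusedSectionVars false
set_option linter.style.haveILetI false
set_option linter.deprecated false

universe v

open Cardinal Set Order

namespace Pool.Agent.W877.Sq

/-- A proper `lam`-complete ideal without more than `nu` disjoint positive sets. -/
structure GoodIdl {Z : Type v} (N : Set Z → Prop) (lam nu : Cardinal.{v}) : Prop where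
  mono : ∀ {X Y : Set Z}, X ⊆ Y → N Y → N X
  proper : ¬ N Set.univ
  complete : ∀ (ι : Type v) (Y : ι → Set Z), #ι < lam → (∀ i, N (Y i)) → N (⋃ i, Y i)
  sat : ∀ (ι : Type v) (Y : ι → Set Z), (∀ i j, i ≠ j → Disjoint (Y i) (Y j)) →
    (∀ i, ¬ N (Y i)) → #ι ≤ nu

namespace GoodIdl

variable {Z : Type v} {N : Set Z → Prop} {lam nu : Cardinal.{v}}

theorem union (h : GoodIdl N lam nu) (hl : ℵ₀ ≤ lam) {X Y : Set Z} (hX : N X) (hY : N Y) :
    N (X ∪ Y) := by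
  have := h.complete (ULift.{v} Bool) (fun b => if b.down then X else Y) (by
    refine lt_of_lt_of_le ?_ hl
    exact mk_lt_aleph0) (fun b => by
      rcases b with ⟨b⟩
      cases b
      · simpa using hY
      · simpa using hX)
  refine h.mono ?_ this
  rintro z (hz | hz)
  · exact Set.mem_iUnion.2 ⟨⟨true⟩, by simpa using hz⟩
  · exact Set.mem_iUnion.2 ⟨⟨false⟩, by simpa using hz⟩

theorem empty (h : GoodIdl N lam nu) (hl : ℵ₀ ≤ lam) : N ∅ := by
  have := h.complete PEmpty (fun b => ∅) (by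
    refine lt_of_lt_of_le ?_ hl
    exact mk_lt_aleph0) (fun b => b.elim)
  simpa using this

/-- a set all of whose points are null and which is small is null -/
theorem small (h : GoodIdl N lam nu) {X : Set Z} (hX : #X < lam) (h1 : ∀ z, N {z}) : N X := by
  have := h.complete X (fun z => {z.1}) hX (fun z => h1 z.1)
  refine h.mono ?_ this
  intro z hz
  exact Set.mem_iUnion.2 ⟨⟨z, hz⟩, rfl⟩

/-- push forward along a map, after restricting to a positive set -/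
theorem push (h : GoodIdl N lam nu) {Z' : Type v} (g : Z → Z') {X : Set Z} (hX : ¬ N X) :
    GoodIdl (fun E : Set Z' => N {z | z ∈ X ∧ g z ∈ E}) lam nu where
  mono := by
    intro A B hAB hB
    refine h.mono ?_ hB
    rintro z ⟨hz, hg⟩
    exact ⟨hz, hAB hg⟩
  proper := by
    intro hn
    apply hX
    refine h.mono ?_ hn
    intro z hz
    exact ⟨hz, Set.mem_univ _⟩
  complete := by
    intro ι Y hι hY
    refine h.mono ?_ (h.complete ι _ hι hY)
    rintro z ⟨hz, hg⟩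
    obtain ⟨i, hi⟩ := Set.mem_iUnion.1 hg
    exact Set.mem_iUnion.2 ⟨i, hz, hi⟩
  sat := by
    intro ι Y hdis hpos
    refine h.sat ι _ (fun i j hij => ?_) hpos
    rw [Set.disjoint_left]
    rintro z ⟨_, hz1⟩ ⟨_, hz2⟩
    exact Set.disjoint_left.1 (hdis i j hij) hz1 hz2

end GoodIdl

section MinFun

variable {Z : Type v} {N : Set Z → Prop} {lam nu : Cardinal.{v}}
variable {W : Type v} [LinearOrder W] [WellFoundedLT W]

/-- `f` tends to infinity on `X` modulo the ideal. -/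
def Unb (N : Set Z → Prop) (X : Set Z) (f : Z → W) : Prop := ∀ r, N {z | z ∈ X ∧ f z ≤ r}

/-- One step down, up to a null set. -/
theorem step_down (h : GoodIdl N lam nu) (hl : ℵ₀ ≤ lam) (hnl : nu < lam)
    (hmin : ∀ (X : Set Z) (f : Z → W), ¬ N X → Unb N X f →
      ∃ (X' : Set Z) (g : Z → W), X' ⊆ X ∧ ¬ N X' ∧ (∀ z ∈ X', g z < f z) ∧ Unb N X' g)
    (X : Set Z) (f : Z → W) (hf : Unb N X f) :
    ∃ (X' : Set Z) (g : Z → W), X' ⊆ X ∧ N (X \ X') ∧ (∀ z ∈ X', g z < f z) ∧ Unb N X' g := by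
  classical
  -- good pieces
  let P : Set Z → Prop := fun A => A ⊆ X ∧ ¬ N A ∧ ∃ g : Z → W, (∀ z ∈ A, g z < f z) ∧ Unb N A g
  let Fam : Set (Set (Set Z)) := {𝒜 | (∀ A ∈ 𝒜, P A) ∧ ∀ A ∈ 𝒜, ∀ B ∈ 𝒜, A ≠ B → Disjoint A B}
  obtain ⟨𝒜, h𝒜, hmax⟩ : ∃ 𝒜, 𝒜 ∈ Fam ∧ ∀ ℬ ∈ Fam, 𝒜 ⊆ ℬ → ℬ ⊆ 𝒜 := by
    obtain ⟨m, hm⟩ := zorn_subset Fam (by
      intro c hc hchain
      refine ⟨⋃₀ c, ⟨?_, ?_⟩, fun s hs => Set.subset_sUnion_of_mem hs⟩
      · rintro A ⟨𝒟, h𝒟, hA⟩
        exact (hc h𝒟).1 A hA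
      · rintro A ⟨𝒟, h𝒟, hA⟩ B ⟨ℰ, hℰ, hB⟩ hne
        rcases hchain.total h𝒟 hℰ with h1 | h1
        · exact (hc hℰ).2 A (h1 hA) B hB hne
        · exact (hc h𝒟).2 A hA B (h1 hB) hne)
    exact ⟨m, hm.prop, fun ℬ hℬ hsub => hm.le_of_ge hℬ hsub⟩
  have hcard : #𝒜 ≤ nu := by
    apply h.sat 𝒜 (fun A => A.1)
    · intro A B hAB
      exact h𝒜.2 A.1 A.2 B.1 B.2 (fun h => hAB (Subtype.ext h))
    · intro A
      exact (h𝒜.1 A.1 A.2).2.1
  have hg : ∀ A : 𝒜, ∃ g : Z → W, (∀ z ∈ A.1, g z < f z) ∧ Unb N A.1 g :=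
    fun A => (h𝒜.1 A.1 A.2).2.2
  choose G hG1 hG2 using hg
  let g : Z → W := fun z => if hz : ∃ A : 𝒜, z ∈ A.1 then G hz.choose z else f z
  have hgA : ∀ (A : 𝒜) (z : Z), z ∈ A.1 → g z = G A z := by
    intro A z hz
    have hex : ∃ A : 𝒜, z ∈ A.1 := ⟨A, hz⟩
    have hAe : hex.choose = A := by
      by_contra hne
      have := h𝒜.2 hex.choose.1 hex.choose.2 A.1 A.2 (fun h => hne (Subtype.ext h))
      exact Set.disjoint_left.1 this hex.choose_spec hz
    simp only [g, dif_pos hex]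
    rw [hAe]
  refine ⟨⋃ A : 𝒜, A.1, g, ?_, ?_, ?_, ?_⟩
  · intro z hz
    obtain ⟨A, hA⟩ := Set.mem_iUnion.1 hz
    exact (h𝒜.1 A.1 A.2).1 hA
  · by_contra hpos
    have hunb : Unb N (X \ ⋃ A : 𝒜, A.1) f := by
      intro r
      refine h.mono ?_ (hf r)
      rintro z ⟨hz, hr⟩
      exact ⟨hz.1, hr⟩
    obtain ⟨X', g', h1, h2, h3, h4⟩ := hmin _ f hpos hunb
    have hin : insert X' 𝒜 ∈ Fam := by
      refine ⟨?_, ?_⟩
      · rintro A (rfl | hA)
        · exact ⟨h1.trans Set.diff_subset, h2, g', h3, h4⟩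
        · exact h𝒜.1 A hA
      · have hd : ∀ B ∈ 𝒜, Disjoint X' B := by
          intro B hB
          rw [Set.disjoint_left]
          intro z hz hzB
          exact (h1 hz).2 (Set.mem_iUnion.2 ⟨⟨B, hB⟩, hzB⟩)
        rintro A (rfl | hA) B (rfl | hB) hne
        · exact absurd rfl hne
        · exact hd B hB
        · exact (hd A hA).symm
        · exact h𝒜.2 A hA B hB hne
    have hX' : X' ∈ 𝒜 := hmax _ hin (Set.subset_insert _ _) (Set.mem_insert _ _)
    have : X' = ∅ := by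
      rw [Set.eq_empty_iff_forall_notMem]
      intro z hz
      exact (h1 hz).2 (Set.mem_iUnion.2 ⟨⟨X', hX'⟩, hz⟩)
    apply h2
    rw [this]
    exact h.empty hl
  · intro z hz
    obtain ⟨A, hA⟩ := Set.mem_iUnion.1 hz
    rw [hgA A z hA]
    exact hG1 A z hA
  · intro r
    refine h.mono ?_ (h.complete 𝒜 (fun A => {z | z ∈ A.1 ∧ G A z ≤ r})
      (lt_of_le_of_lt hcard hnl) (fun A => hG2 A r))
    rintro z ⟨hz, hr⟩
    obtain ⟨A, hA⟩ := Set.mem_iUnion.1 hz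
    rw [hgA A z hA] at hr
    exact Set.mem_iUnion.2 ⟨A, hA, hr⟩

/-- Least unbounded functions exist. -/
theorem exists_min (h : GoodIdl N lam nu) (hl : ℵ₀ < lam) (hnl : nu < lam)
    (f0 : Z → W) (hf0 : Unb N Set.univ f0) :
    ∃ (X : Set Z) (f : Z → W), ¬ N X ∧ Unb N X f ∧
      ∀ X' ⊆ X, ¬ N X' → ∀ g : Z → W, (∀ z ∈ X', g z < f z) → ¬ Unb N X' g := by
  by_contra hcon
  have hmin : ∀ (X : Set Z) (f : Z → W), ¬ N X → Unb N X f →
      ∃ (X' : Set Z) (g : Z → W), X' ⊆ X ∧ ¬ N X' ∧ (∀ z ∈ X', g z < f z) ∧ Unb N X' g := by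
    intro X f hX hf
    by_contra hno
    exact hcon ⟨X, f, hX, hf, fun X' hX' hX'N g hg hu => hno ⟨X', g, hX', hX'N, hg, hu⟩⟩
  have hstep := step_down h hl.le hnl hmin
  -- iterate
  let St := {p : Set Z × (Z → W) // Unb N p.1 p.2}
  have hst : ∀ p : St, ∃ q : St, q.1.1 ⊆ p.1.1 ∧ N (p.1.1 \ q.1.1) ∧
      ∀ z ∈ q.1.1, q.1.2 z < p.1.2 z := by
    intro p
    obtain ⟨X', g, h1, h2, h3, h4⟩ := hstep p.1.1 p.1.2 p.2
    exact ⟨⟨(X', g), h4⟩, h1, h2, h3⟩
  choose nx hnx1 hnx2 hnx3 using hst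
  let p : ℕ → St := fun n => nx^[n] ⟨(Set.univ, f0), hf0⟩
  have hp : ∀ n, p (n + 1) = nx (p n) := fun n => by
    simp only [p, Function.iterate_succ_apply']
  -- the complement of the intersection is null
  have hnull : N (⋃ n : ULift.{v} ℕ, ((p n.down).1.1 \ (p (n.down + 1)).1.1)) := by
    apply h.complete
    · refine lt_of_le_of_lt ?_ hl
      exact mk_le_aleph0
    · intro n
      rw [hp]
      exact hnx2 _
  have hne : ∃ z, ∀ n, z ∈ (p n).1.1 := by
    by_contra hno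
    push Not at hno
    apply h.proper
    refine h.mono ?_ hnull
    intro z _
    obtain ⟨n, hn⟩ := hno z
    have hpos : ∃ m, z ∉ (p m).1.1 := ⟨n, hn⟩
    classical
    have hm := Nat.find_spec hpos
    have h0 : Nat.find hpos ≠ 0 := by
      intro h0
      rw [h0] at hm
      exact hm (Set.mem_univ z)
    obtain ⟨k, hk⟩ := Nat.exists_eq_succ_of_ne_zero h0
    have hk' : z ∈ (p k).1.1 := by
      by_contra hc
      have := Nat.find_min' hpos hc
      omega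
    rw [hk] at hm
    exact Set.mem_iUnion.2 ⟨⟨k⟩, hk', hm⟩
  obtain ⟨z, hz⟩ := hne
  have hdec : ∀ n, (p (n + 1)).1.2 z < (p n).1.2 z := by
    intro n
    have := hz (n + 1)
    rw [hp] at this ⊢
    exact hnx3 _ z this
  obtain ⟨m, ⟨n, rfl⟩, hmin2⟩ := WellFounded.has_min (wellFounded_lt (α := W))
    (Set.range fun n => (p n).1.2 z) ⟨_, 0, rfl⟩
  exact hmin2 _ ⟨n + 1, rfl⟩ (hdec n)

end MinFun

end Pool.Agent.W877.Sq
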