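import Pool.Agent.W877.Sq.Final

/-!
Local form: the clubs only need to be few on the stationary set.
-/

set_option autoImplicit false
set_option linter.unusedVariables false
set_option linter.unusedSectionVars false
set_option linter.style.haveILetI false
set_option linter.deprecated false

universe u

open Cardinal Set Order

namespace Pool.Agent.W877.Sq

/-- If `C` is a coherent sequence of length `lam` and width `< lam`, `nu` is infinite with
`nu⁺ < lam`, the sets `C α` have at most `nu` members for `α` in the stationary set `S`, and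
every family of at most `nu` stationary subsets of `S` reflects simultaneously, then `C` has a
thread. -/
theorem thread_of_refl_local {nu lam : Cardinal.{u}} (hnu : ℵ₀ ≤ nu) (hnl : succ nu < lam)
    (hreg : lam.IsRegular) {C : Ordinal.{u} → Set (Set Ordinal.{u})}
    (hC : IsCoherentSeq lam lam C) {S : Set Ordinal.{u}} (hS : IsStationaryIn S lam.ord)
    (hcard : ∀ α ∈ S, #(C α) ≤ Cardinal.lift.{u + 1} nu)
    (hR : ReflLt lam (succ nu) S) : ∃ D, IsThread lam C D := by
  classical
  have hunc : ℵ₀ < lam := hnu.trans_lt ((lt_succ nu).trans hnl)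
  have hW := reg_W hreg hunc
  have hle : ∀ x : Set.Iio lam.ord, #(CC lam C x) ≤ #(C x.1) := by
    intro x
    refine mk_le_of_injective (f := fun c : CC lam C x => (⟨up c.1, c.2⟩ : C x.1)) ?_
    intro c d h
    exact Subtype.ext (up_inj (congrArg Subtype.val h))
  have hsucc : succ (Cardinal.lift.{u + 1} nu) < #(Set.Iio lam.ord) := by
    rw [mk_W, ← Cardinal.lift_succ, Cardinal.lift_lt]
    exact hnl
  obtain ⟨D, hD⟩ := exists_thread hW (coh_CC hC) (stat_down hreg hunc hS)
    (nu := Cardinal.lift.{u + 1} nu)
    (aleph0_le_lift.2 hnu) hsucc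
    (fun y hy _ => (hle y).trans (hcard y.1 hy))
    (fun x _ => by
      rw [mk_W]
      exact lt_of_le_of_lt (hle x) (hC.width x.1 x.2))
    (by
      intro F hF hFT
      obtain ⟨α, hα, h⟩ := hR (up '' F) (by
        rw [Cardinal.lift_succ]
        exact lt_of_le_of_lt (mk_image_le.trans hF) (lt_succ _)) (by
        rintro _ ⟨A, hA, rfl⟩
        refine ⟨?_, stat_up hreg hunc (hFT A hA).2⟩
        rintro _ ⟨z, hz, rfl⟩
        exact (hFT A hA).1 hz)
      exact ⟨⟨α, hα⟩, fun A hA => RR_of_reflects hC (h _ ⟨A, hA, rfl⟩)⟩)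
  exact ⟨up D, thread_up hreg hunc hC hD⟩

end Pool.Agent.W877.Sq
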